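import Mathlib

/-!
# Connected bipartite Turan numbers of paths (MP_792a66_co)

Definitions and exact statements of the pieces.  `IsP G l`: the list `l` is a path of `G`.
-/

namespace R90.CB

open SimpleGraph

/-- `l` lists the vertices of a path of `G`: no repetition, consecutive entries adjacent. -/
def IsP {V : Type} (G : SimpleGraph V) (l : List V) : Prop := l.Nodup ∧ l.IsChain G.Adj

/-- A normal (depth first) rooted spanning tree of `G`, described by the list `pth v` of the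
vertices on the tree path from the root to `v` (both included). -/
structure NT {V : Type} (G : SimpleGraph V) where
  root : V
  pth : V → List V
  isP : ∀ v, IsP G (pth v)
  hd : ∀ v, (pth v).head? = some root
  lst : ∀ v, (pth v).getLast? = some v
  pre : ∀ v w, w ∈ pth v → pth w <+: pth v
  cmp : ∀ v w, G.Adj v w → v ∈ pth w ∨ w ∈ pth v

/-- Piece T. -/
def S_T : Prop := ∀ (V : Type) [Fintype V] [DecidableEq V] (G : SimpleGraph V),
  G.Connected → Nonempty (NT G)

/-- Piece S. -/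
def S_S : Prop := ∀ (α : Type) [DecidableEq α] (q h : ℕ) (F : Finset (List α)),
  (∀ l ∈ F, l.length ≤ h) → (q + 1) ^ (h + 1) ≤ F.card →
  ∃ (p : List α) (c : Fin q → α) (s : Fin q → List α),
    Function.Injective c ∧ ∀ i, p ++ c i :: s i ∈ F

/-- A fan: paths `σ i` whose first vertex is adjacent to `x` and whose last vertex is adjacent to
all vertices of `N`; they are pairwise disjoint and avoid `x` and `N`. -/
structure Fan {V : Type} (G : SimpleGraph V) (x : V) (N : Finset V) {q : ℕ}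
    (σ : Fin q → List V) : Prop where
  isP : ∀ i, IsP G (σ i)
  hd : ∀ i, ∃ c, (σ i).head? = some c ∧ G.Adj x c
  lst : ∀ i, ∃ v, (σ i).getLast? = some v ∧ ∀ n ∈ N, G.Adj n v
  dj : ∀ i j, i ≠ j → List.Disjoint (σ i) (σ j)
  nx : ∀ i, x ∉ σ i
  nN : ∀ i, ∀ n ∈ N, n ∉ σ i

/-- There is a path of `G` with at least `m` vertices, ending at `e`, all of whose vertices lie in
`U` or in one of the lists `σ i`. -/
def Reach {V : Type} (G : SimpleGraph V) (U : Finset V) {q : ℕ} (σ : Fin q → List V)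
    (e : V) (m : ℕ) : Prop :=
  ∃ Q : List V, IsP G Q ∧ Q.getLast? = some e ∧ (∀ w ∈ Q, w ∈ U ∨ ∃ i, w ∈ σ i) ∧ m ≤ Q.length

/-- Piece V. -/
def S_V : Prop := ∀ (V : Type) [DecidableEq V] (G : SimpleGraph V) (x : V) (N : Finset V)
  (q g : ℕ) (σ : Fin q → List V), Fan G x N σ → (∀ i, g ≤ (σ i).length) → N.card + 2 ≤ q →
  (∀ e ∈ N, Reach G N σ e (g + 2 * N.card - 1)) ∧
  (x ∉ N → ∀ e ∈ N, Reach G (insert x N) σ e (2 * g + 2 * N.card)) ∧
  (x ∉ N → N.Nonempty → Reach G (insert x N) σ x (2 * g + 2 * N.card)) ∧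
  Reach G {x} σ x (g + 1)

/-- Piece L. -/
def S_L : Prop := ∀ (V : Type) [DecidableEq V] (G : SimpleGraph V) (r : V) (p p' : List V)
  (U U' : Finset V) (q q' m m' : ℕ) (σ : Fin q → List V) (σ' : Fin q' → List V),
  IsP G p → IsP G p' → p.head? = some r → p'.head? = some r →
  U.Nonempty → U'.Nonempty → (∀ u ∈ U, u ∈ p) → (∀ u ∈ U', u ∈ p') →
  (∀ i, List.Disjoint (σ i) p) → (∀ i, List.Disjoint (σ i) p') →
  (∀ i, List.Disjoint (σ' i) p) → (∀ i, List.Disjoint (σ' i) p') →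
  (∀ i j, List.Disjoint (σ i) (σ' j)) →
  (∀ e ∈ U, Reach G U σ e m) → (∀ e ∈ U', Reach G U' σ' e m') →
  (Disjoint U U' → ∃ l, IsP G l ∧ m + m' ≤ l.length) ∧
  (∀ e, U ∩ U' = {e} → ∃ l, IsP G l ∧ m + m' ≤ l.length + 1)

/-- Piece LB (the lower bound construction). -/
def S_LB : Prop := ∀ k n : ℕ, 5 ≤ k → k ≤ n → ∃ G : SimpleGraph (Fin n ⊕ Fin n),
  G ≤ completeBipartiteGraph (Fin n) (Fin n) ∧ G.Connected ∧
  (∀ l : List (Fin n ⊕ Fin n), IsP G l → l.length < k) ∧
  (k - 1) / 2 * n ≤ G.edgeSet.ncard + ((k - 1) / 2 - 1)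

end R90.CB
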