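import Mathlib
import Pool.Agent.R90.CB.Defs

namespace R90.CB

open SimpleGraph

section basic

variable {V : Type} {G : SimpleGraph V}

theorem prefix_eq_of_last {l l1 l2 : List V} (hl : l.Nodup) (h1 : l1 <+: l) (h2 : l2 <+: l)
    {x : V} (e1 : l1.getLast? = some x) (e2 : l2.getLast? = some x) : l1 = l2 := by
  have key : ∀ l1 l2 : List V, l2.Nodup → l1 <+: l2 → l1.getLast? = some x →
      l2.getLast? = some x → l1 = l2 := by
    intro l1 l2 hn hp e1 e2
    obtain ⟨t, rfl⟩ := hp
    rcases t.eq_nil_or_concat with rfl | ⟨t', y, rfl⟩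
    · simp
    · exfalso
      have hy : y = x := by
        have : (l1 ++ t'.concat y).getLast? = some y := by
          rw [List.concat_eq_append, ← List.append_assoc, List.getLast?_append]
          simp
        rw [this] at e2
        exact Option.some.inj e2
      have hx1 : x ∈ l1 := List.mem_of_getLast? e1
      have hx2 : x ∈ t'.concat y := by simp [hy]
      exact (List.nodup_append.1 hn).2.2 x hx1 x hx2 rfl
  rcases List.prefix_or_prefix_of_prefix h1 h2 with h | h
  · exact key l1 l2 (hl.sublist h2.sublist) h e1 e2
  · exact (key l2 l1 (hl.sublist h1.sublist) h e2 e1).symm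

theorem NT.pth_eq (T : NT G) {v w : V} {p s : List V} (h : T.pth v = p ++ s)
    (hp : p.getLast? = some w) : T.pth w = p := by
  have hw : w ∈ T.pth v := by
    rw [h]; exact List.mem_append_left _ (List.mem_of_getLast? hp)
  exact prefix_eq_of_last (T.isP v).1 (T.pre v w hw) ⟨s, h.symm⟩ (T.lst w) hp

theorem NT.inj (T : NT G) : Function.Injective T.pth := by
  intro v w h
  have h1 := T.lst v
  have h2 := T.lst w
  rw [h, h2] at h1
  exact (Option.some.inj h1).symm

theorem NT.branch_disjoint (T : NT G) {v w : V} {p s s' : List V} {c c' : V}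
    (hv : T.pth v = p ++ c :: s) (hw : T.pth w = p ++ c' :: s') (hc : c ≠ c') :
    List.Disjoint (c :: s) (c' :: s') := by
  intro y hy1 hy2
  have ndv := (T.isP v).1
  have ndw := (T.isP w).1
  have h1 : T.pth y <+: p ++ c :: s := by
    rw [← hv]; exact T.pre v y (by rw [hv]; exact List.mem_append_right _ hy1)
  have h2 : T.pth y <+: p ++ c' :: s' := by
    rw [← hw]; exact T.pre w y (by rw [hw]; exact List.mem_append_right _ hy2)
  have hyp : y ∉ p := by
    intro hy
    rw [hv] at ndv
    exact (List.nodup_append.1 ndv).2.2 y hy y hy1 rfl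
  have hp : p <+: T.pth y := by
    rcases List.prefix_or_prefix_of_prefix h1 (List.prefix_append p (c :: s)) with h | h
    · exact absurd (h.subset (List.mem_of_getLast? (T.lst y))) hyp
    · exact h
  obtain ⟨t, ht⟩ := hp
  cases t with
  | nil =>
    apply hyp
    rw [List.append_nil] at ht
    rw [ht]
    exact List.mem_of_getLast? (T.lst y)
  | cons d t' =>
    rw [← ht, List.prefix_append_right_inj, List.cons_prefix_cons] at h1 h2
    exact hc (h1.1.symm.trans h2.1)

/-- in an alternating chain ending on side `s` at most half of the vertices are on the other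
side -/
theorem alt_count {side : V → Bool} (hside : ∀ v w, G.Adj v w → side v ≠ side w) (s : Bool) :
    ∀ (l : List V) (c v : V), l.IsChain G.Adj → l.head? = some c → l.getLast? = some v →
      side v = s →
      (side c = s → 2 * l.countP (fun w => side w ≠ s) + 1 = l.length) ∧
      (side c ≠ s → 2 * l.countP (fun w => side w ≠ s) = l.length) := by
  intro l
  induction l with
  | nil => intro c v _ h; simp at h
  | cons x l ih =>
    intro c v hl hc hv hs
    simp only [List.head?_cons, Option.some.injEq] at hc
    subst hc
    cases l with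
    | nil =>
      simp only [List.getLast?_singleton, Option.some.injEq] at hv
      subst hv
      refine ⟨fun _ => by simp [hs], fun h => absurd hs h⟩
    | cons y l =>
      rw [List.isChain_cons_cons] at hl
      have hv' : (y :: l).getLast? = some v := by
        rw [List.getLast?_cons_cons] at hv; exact hv
      have := ih y v hl.2 (by simp) hv' hs
      have hxy := hside x y hl.1
      refine ⟨fun h => ?_, fun h => ?_⟩
      · have hy : side y ≠ s := by rw [← h]; exact fun e => hxy e.symm
        have h2 := this.2 hy
        rw [List.countP_cons, List.length_cons, ← h2]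
        simp [h]
      · have hy : side y = s := by
          revert h hxy; cases side x <;> cases side y <;> cases s <;> simp
        have h2 := this.1 hy
        rw [List.countP_cons, List.length_cons, ← h2]
        simp only [ne_eq, h, not_false_eq_true, decide_true, if_true]
        ring

end basic

variable {V : Type} [DecidableEq V] {G : SimpleGraph V}

open Classical in
/-- number of neighbours of `v` among its ancestors -/
noncomputable def up (T : NT G) (v : V) : ℕ := ((T.pth v).toFinset.filter (fun w => G.Adj w v)).card

open Classical in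
theorem branch (hS : S_S) {side : V → Bool} (hside : ∀ v w, G.Adj v w → side v ≠ side w)
    (q h a : ℕ) (hq : 2 ≤ q) (s : Bool) (T : NT G) (hh : ∀ v, (T.pth v).length ≤ h)
    (MV : Finset V) (hM : (q * 2 ^ h + 1) ^ (h + 1) ≤ MV.card) (hs : ∀ v ∈ MV, side v = s)
    (hu : ∀ v ∈ MV, a ≤ up T v) :
    ∃ (x : V) (N : Finset V) (σ : Fin q → List V), (∀ n ∈ N, n ∈ T.pth x ∧ side n ≠ s) ∧
      Fan G x N σ ∧ (∀ i, List.Disjoint (σ i) (T.pth x)) ∧ (∀ i, (σ i).length ≤ h) ∧
      (∀ i, 1 ≤ (σ i).length ∧ 2 * (a - N.card) ≤ (σ i).length ∧
        (side x ≠ s → 2 * (a - N.card) + 1 ≤ (σ i).length)) := by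
  have hF : (MV.image T.pth).card = MV.card := Finset.card_image_of_injective _ T.inj
  obtain ⟨p, c, t, hc, hpc⟩ := hS V (q * 2 ^ h) h (MV.image T.pth)
    (by intro l hl; obtain ⟨v, _, rfl⟩ := Finset.mem_image.1 hl; exact hh v) (by rw [hF]; exact hM)
  have hv : ∀ i, ∃ v ∈ MV, T.pth v = p ++ c i :: t i := by
    intro i
    exact Finset.mem_image.1 (hpc i)
  choose v hvM hvp using hv
  have hqpos : 2 ≤ q * 2 ^ h := le_trans hq (Nat.le_mul_of_pos_right _ (by positivity))
  -- p is nonempty
  have hpne : p ≠ [] := by
    rintro rfl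
    have h0 := T.hd (v ⟨0, by omega⟩)
    have h1 := T.hd (v ⟨1, by omega⟩)
    rw [hvp] at h0 h1
    simp only [List.nil_append, List.head?_cons, Option.some.injEq] at h0 h1
    have := hc (h0.trans h1.symm)
    simp at this
  obtain ⟨x, hx⟩ : ∃ x, p.getLast? = some x := by
    rcases hxx : p.getLast? with _ | x
    · rw [List.getLast?_eq_none_iff] at hxx; exact absurd hxx hpne
    · exact ⟨x, rfl⟩
  have i0 : Fin (q * 2 ^ h) := ⟨0, by omega⟩
  have hpx : T.pth x = p := T.pth_eq (hvp i0) hx
  -- pigeonhole on the neighbours in p
  let Ni : Fin (q * 2 ^ h) → Finset V := fun i => p.toFinset.filter (fun w => G.Adj w (v i))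
  have hcardp : p.toFinset.powerset.card ≤ 2 ^ h := by
    rw [Finset.card_powerset]
    apply Nat.pow_le_pow_right (by norm_num)
    calc p.toFinset.card ≤ p.length := List.toFinset_card_le _
      _ ≤ h := by rw [← hpx]; exact hh x
  obtain ⟨N, hNp, hNc⟩ := Finset.exists_le_card_fiber_of_mul_le_card_of_maps_to
    (s := Finset.univ) (t := p.toFinset.powerset) (f := Ni) (n := q)
    (by intro i _; rw [Finset.mem_powerset]; exact Finset.filter_subset _ _)
    ⟨∅, by simp⟩
    (by
      rw [Finset.card_univ, Fintype.card_fin]
      rw [Nat.mul_comm]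
      exact Nat.mul_le_mul_left _ hcardp)
  obtain ⟨f, hf⟩ : ∃ f : Fin q ↪ Fin (q * 2 ^ h), ∀ i, Ni (f i) = N := by
    have hcard : q ≤ (Finset.univ.filter (fun i => Ni i = N)).card := hNc
    obtain ⟨S, hS1, hS2⟩ := Finset.exists_subset_card_eq hcard
    let e := (Finset.equivFinOfCardEq hS2).symm
    refine ⟨⟨fun i => (e i).1, fun i j hij => e.injective (Subtype.ext hij)⟩, fun i => ?_⟩
    have := hS1 (e i).2
    simpa using this
  have hN : ∀ i, N = p.toFinset.filter (fun w => G.Adj w (v (f i))) := fun i => (hf i).symm
  have hmemN : ∀ n ∈ N, ∀ i, n ∈ p ∧ G.Adj n (v (f i)) := by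
    intro n hn i
    rw [hN i] at hn
    simpa using hn
  have hnd : ∀ i, (p ++ c i :: t i).Nodup := fun i => by rw [← hvp]; exact (T.isP _).1
  have hch : ∀ i, (p ++ c i :: t i).IsChain G.Adj := fun i => by rw [← hvp]; exact (T.isP _).2
  have hlast : ∀ i, (c i :: t i).getLast? = some (v i) := by
    intro i
    have := T.lst (v i)
    rw [hvp, List.getLast?_append] at this
    rcases h2 : (c i :: t i).getLast? with _ | y
    · simp at h2
    · rw [h2] at this; simpa using this
  have hadj : ∀ i, G.Adj x (c i) := by
    intro i
    have := List.isChain_append.1 (hch i)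
    exact this.2.2 x hx (c i) (by simp)
  have hdisj : ∀ i, List.Disjoint (c i :: t i) p := by
    intro i y hy1 hy2
    exact (List.nodup_append.1 (hnd i)).2.2 y hy2 y hy1 rfl
  refine ⟨x, N, fun i => c (f i) :: t (f i), ?_, ?_, ?_, ?_, ?_⟩
  · intro n hn
    have := hmemN n hn ⟨0, by omega⟩
    rw [hpx]
    refine ⟨this.1, ?_⟩
    have h2 := hside _ _ this.2
    rw [hs _ (hvM _)] at h2
    exact h2
  · constructor
    · intro i
      refine ⟨(List.nodup_append.1 (hnd (f i))).2.1, (List.isChain_append.1 (hch (f i))).2.1⟩
    · intro i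
      exact ⟨c (f i), by simp, hadj _⟩
    · intro i
      exact ⟨v (f i), hlast _, fun n hn => (hmemN n hn i).2⟩
    · intro i j hij
      exact T.branch_disjoint (hvp (f i)) (hvp (f j)) (fun e => hij (f.injective (hc e)))
    · intro i hxi
      exact hdisj (f i) hxi (List.mem_of_getLast? hx)
    · intro i n hn hni
      exact hdisj (f i) hni (hmemN n hn i).1
  · intro i
    rw [hpx]
    exact hdisj (f i)
  · intro i
    have := hh (v (f i))
    rw [hvp, List.length_append] at this
    beta_reduce
    omega
  · intro i
    beta_reduce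
    -- neighbours of v in the private part
    have hup := hu _ (hvM (f i))
    have hsv := hs _ (hvM (f i))
    have hsplit : up T (v (f i)) ≤ N.card +
        ((c (f i) :: t (f i)).toFinset.filter (fun w => G.Adj w (v (f i)))).card := by
      unfold up
      rw [hvp, List.toFinset_append, Finset.filter_union, hN i]
      exact Finset.card_union_le _ _
    have hcnt : ((c (f i) :: t (f i)).toFinset.filter (fun w => G.Adj w (v (f i)))).card ≤
        (c (f i) :: t (f i)).countP (fun w => side w ≠ s) := by
      rw [List.countP_eq_length_filter]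
      refine le_trans (Finset.card_le_card ?_) (List.toFinset_card_le _)
      intro w hw
      rw [Finset.mem_filter, List.mem_toFinset] at hw
      rw [List.mem_toFinset, List.mem_filter]
      refine ⟨hw.1, ?_⟩
      have := hside _ _ hw.2
      rw [hsv] at this
      simpa using this
    have halt := alt_count hside s (c (f i) :: t (f i)) (c (f i)) (v (f i))
      (List.isChain_append.1 (hch (f i))).2.1 (by simp) (hlast _) hsv
    have hxc := hside _ _ (hadj (f i))
    refine ⟨by simp, ?_, ?_⟩
    · rcases eq_or_ne (side (c (f i))) s with h1 | h1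
      · have := halt.1 h1; omega
      · have := halt.2 h1; omega
    · intro hxs
      have h1 : side (c (f i)) = s := by
        revert hxs hxc; cases side x <;> cases side (c (f i)) <;> cases s <;> simp
      have := halt.1 h1; omega

end R90.CB
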