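import Mathlib
import Pool.Agent.R90.CB.Defs
import Pool.Agent.R90.CB.B

namespace R90.CB

open SimpleGraph

variable {V : Type} [DecidableEq V] {G : SimpleGraph V}

theorem Reach.mono {U : Finset V} {q : ℕ} {σ : Fin q → List V} {e : V} {m m' : ℕ}
    (h : Reach G U σ e m) (hm : m' ≤ m) : Reach G U σ e m' := by
  obtain ⟨Q, h1, h2, h3, h4⟩ := h
  exact ⟨Q, h1, h2, h3, hm.trans h4⟩

/-- one side -/
theorem one_side (hV : S_V) {side : V → Bool} (a q : ℕ) (s : Bool) (x : V) (N : Finset V)
    (σ : Fin q → List V) (hN : ∀ n ∈ N, side n ≠ s) (hF : Fan G x N σ) (hq : N.card + 2 ≤ q)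
    (hl : ∀ i, 1 ≤ (σ i).length ∧ 2 * (a - N.card) ≤ (σ i).length ∧
        (side x ≠ s → 2 * (a - N.card) + 1 ≤ (σ i).length)) :
    ∃ (U : Finset V) (m : ℕ), U.Nonempty ∧ U ⊆ insert x N ∧
      ((U ⊆ N ∧ m = 2 * a) ∨ m = 2 * a + 1) ∧ (∀ e ∈ U, Reach G U σ e m) := by
  rcases N.eq_empty_or_nonempty with rfl | hne
  · have := (hV V G x ∅ q (2 * a) σ hF (fun i => by simpa using (hl i).2.1) hq).2.2.2
    refine ⟨{x}, 2 * a + 1, by simp, by simp, Or.inr rfl, ?_⟩
    intro e he
    rw [Finset.mem_singleton] at he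
    subst he
    exact this
  · have hNc : 1 ≤ N.card := Finset.card_pos.2 hne
    rcases Nat.eq_zero_or_pos (a - N.card) with h0 | h0
    · have := (hV V G x N q 1 σ hF (fun i => (hl i).1) hq).1
      refine ⟨N, 2 * a, hne, Finset.subset_insert _ _, Or.inl ⟨subset_rfl, rfl⟩, fun e he => ?_⟩
      exact (this e he).mono (by omega)
    · by_cases hxs : side x = s
      · have hxN : x ∉ N := fun h => hN x h hxs
        have := hV V G x N q (2 * (a - N.card)) σ hF (fun i => (hl i).2.1) hq
        refine ⟨insert x N, 2 * a + 1, by simp, subset_rfl, Or.inr rfl, fun e he => ?_⟩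
        rw [Finset.mem_insert] at he
        rcases he with rfl | he
        · exact (this.2.2.1 hxN hne).mono (by omega)
        · exact (this.2.1 hxN e he).mono (by omega)
      · have := (hV V G x N q (2 * (a - N.card) + 1) σ hF (fun i => (hl i).2.2 hxs) hq).1
        refine ⟨N, 2 * a, hne, Finset.subset_insert _ _, Or.inl ⟨subset_rfl, rfl⟩, fun e he => ?_⟩
        exact (this e he).mono (by omega)

/-- among many pairwise disjoint lists, many avoid a given set -/
theorem pick {q m : ℕ} (σ : Fin q → List V) (hd : ∀ i j, i ≠ j → List.Disjoint (σ i) (σ j))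
    (W : Finset V) (hq : m + W.card ≤ q) :
    ∃ f : Fin m ↪ Fin q, ∀ i, ∀ w ∈ W, w ∉ σ (f i) := by
  classical
  let bad : Finset (Fin q) := W.biUnion (fun w => Finset.univ.filter (fun i => w ∈ σ i))
  have hbad : bad.card ≤ W.card := by
    refine le_trans Finset.card_biUnion_le ?_
    refine le_trans (Finset.sum_le_card_nsmul W _ 1 ?_) (by simp)
    intro w _
    rw [Finset.card_le_one]
    intro i hi j hj
    rw [Finset.mem_filter] at hi hj
    by_contra hij
    exact hd i j hij hi.2 hj.2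
  have hgood : m ≤ (badᶜ).card := by
    rw [Finset.card_compl, Fintype.card_fin]; omega
  obtain ⟨S, hS1, hS2⟩ := Finset.exists_subset_card_eq hgood
  let e := (Finset.equivFinOfCardEq hS2).symm
  refine ⟨⟨fun i => (e i).1, fun i j hij => e.injective (Subtype.ext hij)⟩, fun i w hw hwi => ?_⟩
  have h1 := hS1 (e i).2
  rw [Finset.mem_compl] at h1
  apply h1
  simp only [bad, Finset.mem_biUnion, Finset.mem_filter, Finset.mem_univ, true_and]
  exact ⟨w, hw, hwi⟩

theorem Fan.restrict {x : V} {N : Finset V} {q m : ℕ} {σ : Fin q → List V} (h : Fan G x N σ)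
    (f : Fin m ↪ Fin q) : Fan G x N (fun i => σ (f i)) :=
  ⟨fun i => h.isP _, fun i => h.hd _, fun i => h.lst _,
    fun i j hij => h.dj _ _ (fun e => hij (f.injective e)), fun i => h.nx _, fun i => h.nN _⟩

/-- The main claim: many vertices with large up-degree on both sides give a long path. -/
theorem claim (hS : S_S) (hV : S_V) (hL : S_L) {side : V → Bool}
    (hside : ∀ v w, G.Adj v w → side v ≠ side w) (h a b : ℕ) (T : NT G)
    (hh : ∀ v, (T.pth v).length ≤ h) (MA MB : Finset V)
    (hA : ((2 * h + 2 + (h + 2) * h) * 2 ^ h + 1) ^ (h + 1) ≤ MA.card)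
    (hB : ((2 * h + 2 + (h + 2) * h) * 2 ^ h + 1) ^ (h + 1) ≤ MB.card)
    (sA : ∀ v ∈ MA, side v = true) (sB : ∀ v ∈ MB, side v = false)
    (uA : ∀ v ∈ MA, a ≤ up T v) (uB : ∀ v ∈ MB, b ≤ up T v) :
    ∃ l, IsP G l ∧ 2 * (a + b) ≤ l.length := by
  obtain ⟨x, N, σ, hN, hF, hd, hlen, hl⟩ := branch hS hside _ h a (by nlinarith) true T hh MA hA sA uA
  obtain ⟨x', N', σ', hN', hF', hd', hlen', hl'⟩ :=
    branch hS hside _ h b (by nlinarith) false T hh MB hB sB uB
  have hcx : (T.pth x).toFinset.card ≤ h := (List.toFinset_card_le _).trans (hh x)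
  have hcx' : (T.pth x').toFinset.card ≤ h := (List.toFinset_card_le _).trans (hh x')
  -- choose branches
  obtain ⟨f, hf⟩ := pick (m := h + 2) σ hF.dj (T.pth x').toFinset (by nlinarith)
  let W : Finset V := (T.pth x).toFinset ∪
    (Finset.univ : Finset (Fin (h + 2))).biUnion (fun i => (σ (f i)).toFinset)
  have hW : W.card ≤ h + (h + 2) * h := by
    refine le_trans (Finset.card_union_le _ _) ?_
    refine Nat.add_le_add hcx ?_
    refine le_trans Finset.card_biUnion_le ?_
    refine le_trans (Finset.sum_le_card_nsmul _ _ h ?_) (by simp)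
    intro i _
    exact (List.toFinset_card_le _).trans (hlen _)
  obtain ⟨f', hf'⟩ := pick (m := h + 2) σ' hF'.dj W (by omega)
  have hNc : N.card + 2 ≤ h + 2 := by
    have : N ⊆ (T.pth x).toFinset := fun n hn => List.mem_toFinset.2 (hN n hn).1
    have := Finset.card_le_card this
    omega
  have hNc' : N'.card + 2 ≤ h + 2 := by
    have : N' ⊆ (T.pth x').toFinset := fun n hn => List.mem_toFinset.2 (hN' n hn).1
    have := Finset.card_le_card this
    omega
  obtain ⟨U, m, hUne, hUs, hUm, hUr⟩ := one_side hV a (h + 2) true x N (fun i => σ (f i))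
    (fun n hn => (hN n hn).2) (hF.restrict f) hNc (fun i => hl (f i))
  obtain ⟨U', m', hUne', hUs', hUm', hUr'⟩ := one_side hV b (h + 2) false x' N'
    (fun i => σ' (f' i)) (fun n hn => (hN' n hn).2) (hF'.restrict f') hNc' (fun i => hl' (f' i))
  have hxx : x ∈ T.pth x := List.mem_of_getLast? (T.lst x)
  have hxx' : x' ∈ T.pth x' := List.mem_of_getLast? (T.lst x')
  have hUp : ∀ u ∈ U, u ∈ T.pth x := by
    intro u hu
    rcases Finset.mem_insert.1 (hUs hu) with rfl | hu
    · exact hxx
    · exact (hN u hu).1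
  have hUp' : ∀ u ∈ U', u ∈ T.pth x' := by
    intro u hu
    rcases Finset.mem_insert.1 (hUs' hu) with rfl | hu
    · exact hxx'
    · exact (hN' u hu).1
  have hlink := hL V G T.root (T.pth x) (T.pth x') U U' (h + 2) (h + 2) m m'
    (fun i => σ (f i)) (fun i => σ' (f' i)) (T.isP x) (T.isP x') (T.hd x) (T.hd x') hUne hUne'
    hUp hUp' (fun i => hd (f i))
    (fun i y hy1 hy2 => hf i y (List.mem_toFinset.2 hy2) hy1)
    (fun i y hy1 hy2 => hf' i y (Finset.mem_union_left _ (List.mem_toFinset.2 hy2)) hy1)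
    (fun i => hd' (f' i))
    (fun i j y hy1 hy2 => hf' j y (Finset.mem_union_right _
      (Finset.mem_biUnion.2 ⟨i, Finset.mem_univ _, List.mem_toFinset.2 hy1⟩)) hy2)
    hUr hUr'
  have hNN : Disjoint N N' := by
    rw [Finset.disjoint_left]
    intro n hn hn'
    have h1 := (hN n hn).2
    have h2 := (hN' n hn').2
    revert h1 h2; cases side n <;> simp
  by_cases hdis : Disjoint U U'
  · obtain ⟨l, hl1, hl2⟩ := hlink.1 hdis
    refine ⟨l, hl1, le_trans ?_ hl2⟩
    rcases hUm with ⟨_, rfl⟩ | rfl <;> rcases hUm' with ⟨_, rfl⟩ | rfl <;> omega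
  · have hnot : ¬ (U ⊆ N ∧ U' ⊆ N') := fun hh2 =>
      hdis (Finset.disjoint_of_subset_left hh2.1 (Finset.disjoint_of_subset_right hh2.2 hNN))
    obtain ⟨e, heU, heU'⟩ := Finset.not_disjoint_iff.1 hdis
    have huniq : ∀ y z, y ∈ U → y ∈ U' → z ∈ U → z ∈ U' → y = x → z = x' → y = z := by
      rintro y z hy hy' hz hz' rfl rfl
      have h1 : T.pth y <+: T.pth z := T.pre z y (hUp' y hy')
      have h2 : T.pth z <+: T.pth y := T.pre y z (hUp z hz)
      exact T.inj (h1.eq_of_length (le_antisymm h1.length_le h2.length_le))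
    have hcase : ∀ y, y ∈ U → y ∈ U' → y = x ∨ y = x' := by
      intro y hy hy'
      rcases Finset.mem_insert.1 (hUs hy) with h1 | h1
      · exact Or.inl h1
      · rcases Finset.mem_insert.1 (hUs' hy') with h2 | h2
        · exact Or.inr h2
        · exact absurd h2 (Finset.disjoint_left.1 hNN h1)
    have heq : U ∩ U' = {e} := by
      ext y
      rw [Finset.mem_inter, Finset.mem_singleton]
      refine ⟨fun hy => ?_, fun hy => by rw [hy]; exact ⟨heU, heU'⟩⟩
      rcases hcase y hy.1 hy.2 with h1 | h1 <;> rcases hcase e heU heU' with h2 | h2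
      · exact h1.trans h2.symm
      · exact huniq y e hy.1 hy.2 heU heU' h1 h2
      · exact (huniq e y heU heU' hy.1 hy.2 h2 h1).symm
      · exact h1.trans h2.symm
    obtain ⟨l, hl1, hl2⟩ := hlink.2 e heq
    refine ⟨l, hl1, ?_⟩
    rcases hUm with ⟨h1, rfl⟩ | rfl <;> rcases hUm' with ⟨h2, rfl⟩ | rfl
    · exact absurd ⟨h1, h2⟩ hnot
    all_goals omega

end R90.CB
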