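import Mathlib
import Pool.Agent.R90.CB.Defs
import Pool.Agent.R90.CB.B
import Pool.Agent.R90.CB.C

namespace R90.CB

open SimpleGraph

theorem sum_bound {V : Type} [DecidableEq V] (A : Finset V) (f : V → ℕ) (h M : ℕ)
    (hf : ∀ v ∈ A, f v ≤ h) (hM : M ≤ A.card) :
    ∃ a, M ≤ (A.filter (fun v => a ≤ f v)).card ∧ ∑ v ∈ A, f v ≤ a * A.card + h * M := by
  classical
  let P : ℕ → Prop := fun a => M ≤ (A.filter (fun v => a ≤ f v)).card
  have hP0 : P 0 := by simpa [P] using hM
  have hPa : P (Nat.findGreatest P h) := Nat.findGreatest_spec (Nat.zero_le h) hP0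
  refine ⟨Nat.findGreatest P h, hPa, ?_⟩
  set a := Nat.findGreatest P h with ha
  have hlt : (A.filter (fun v => a + 1 ≤ f v)).card ≤ M := by
    rcases Nat.lt_or_ge a h with h1 | h1
    · have : ¬ P (a + 1) := Nat.findGreatest_is_greatest (n := h) (by omega) (by omega)
      simp only [P, not_le] at this
      exact this.le
    · have : A.filter (fun v => a + 1 ≤ f v) = ∅ := by
        rw [Finset.filter_eq_empty_iff]
        intro v hv
        have := hf v hv
        omega
      rw [this]; simp
  calc ∑ v ∈ A, f v ≤ ∑ v ∈ A, (a + if a + 1 ≤ f v then h else 0) := by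
        apply Finset.sum_le_sum
        intro v hv
        have := hf v hv
        split_ifs with h2 <;> omega
    _ = a * A.card + h * (A.filter (fun v => a + 1 ≤ f v)).card := by
        rw [Finset.sum_add_distrib, Finset.sum_const, ← Finset.sum_filter, Finset.sum_const]
        simp only [smul_eq_mul]
        ring
    _ ≤ a * A.card + h * M := by
        exact Nat.add_le_add_left (Nat.mul_le_mul_left _ hlt) _

theorem edges_le {V : Type} [Fintype V] [DecidableEq V] {G : SimpleGraph V} (T : NT G) :
    G.edgeSet.ncard ≤ ∑ v, up T v := by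
  classical
  let S : Finset (Σ _ : V, V) := (Finset.univ : Finset V).sigma
    (fun v => (T.pth v).toFinset.filter (fun w => G.Adj w v))
  have h1 : G.edgeSet ⊆ ((S.image (fun p => s(p.2, p.1)) : Finset (Sym2 V)) : Set (Sym2 V)) := by
    intro e he
    induction e using Sym2.ind with
    | _ v w =>
      rw [mem_edgeSet] at he
      rw [Finset.mem_coe, Finset.mem_image]
      rcases T.cmp v w he with h | h
      · refine ⟨⟨w, v⟩, ?_, rfl⟩
        simp [S, h, he]
      · refine ⟨⟨v, w⟩, ?_, Sym2.eq_swap⟩
        simp [S, h, he.symm]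
  calc G.edgeSet.ncard ≤ (((S.image (fun p => s(p.2, p.1)) : Finset (Sym2 V)) : Set (Sym2 V))).ncard :=
        Set.ncard_le_ncard h1 (Finset.finite_toSet _)
    _ = (S.image (fun p => s(p.2, p.1))).card := Set.ncard_coe_finset _
    _ ≤ S.card := Finset.card_image_le
    _ = ∑ v, up T v := by
        rw [Finset.card_sigma]
        rfl

theorem up_le {V : Type} [DecidableEq V] {G : SimpleGraph V} (T : NT G) (h : ℕ)
    (hh : ∀ v, (T.pth v).length ≤ h) (v : V) : up T v ≤ h := by
  classical
  unfold up
  refine le_trans (Finset.card_le_card (Finset.filter_subset _ _)) ?_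
  exact (List.toFinset_card_le _).trans (hh v)

theorem upper (hT : S_T) (hS : S_S) (hV : S_V) (hL : S_L) (t : ℕ) :
    ∃ C, ∀ (n : ℕ) (G : SimpleGraph (Fin n ⊕ Fin n)),
      G ≤ completeBipartiteGraph (Fin n) (Fin n) → G.Connected →
      (∀ l : List (Fin n ⊕ Fin n), IsP G l → l.length < 2 * t + 2) →
      G.edgeSet.ncard ≤ t * n + C := by
  classical
  let h := 2 * t + 1
  let M := ((2 * h + 2 + (h + 2) * h) * 2 ^ h + 1) ^ (h + 1)
  refine ⟨2 * h * M, fun n G hG hc hP => ?_⟩
  obtain ⟨T⟩ := hT _ G hc
  have hh : ∀ v, (T.pth v).length ≤ h := fun v => by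
    have := hP _ (T.isP v)
    show (T.pth v).length ≤ 2 * t + 1
    omega
  have hup := up_le T h hh
  refine (edges_le T).trans ?_
  let side : Fin n ⊕ Fin n → Bool := Sum.isLeft
  have hside : ∀ v w, G.Adj v w → side v ≠ side w := by
    intro v w hvw
    have := hG hvw
    rcases v with v | v <;> rcases w with w | w <;> simp_all [side]
  let A := Finset.univ.filter (fun v => side v = true)
  let B := Finset.univ.filter (fun v => side v = false)
  have hAc : A.card = n := by
    have : A = Finset.univ.map ⟨(Sum.inl : Fin n → Fin n ⊕ Fin n), Sum.inl_injective⟩ := by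
      ext v; rcases v with v | v <;> simp [A, side]
    rw [this, Finset.card_map, Finset.card_univ, Fintype.card_fin]
  have hBc : B.card = n := by
    have : B = Finset.univ.map ⟨(Sum.inr : Fin n → Fin n ⊕ Fin n), Sum.inr_injective⟩ := by
      ext v; rcases v with v | v <;> simp [B, side]
    rw [this, Finset.card_map, Finset.card_univ, Fintype.card_fin]
  have hsplit : ∑ v, up T v = ∑ v ∈ A, up T v + ∑ v ∈ B, up T v := by
    rw [← Finset.sum_filter_add_sum_filter_not Finset.univ (fun v => side v = true)]
    congr 1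
    apply Finset.sum_congr _ (fun _ _ => rfl)
    ext v; simp [B]
  rw [hsplit]
  rcases Nat.lt_or_ge n M with hn | hn
  · have h1 : ∑ v ∈ A, up T v ≤ n * h := by
      have := Finset.sum_le_card_nsmul A (up T) h (fun v _ => hup v)
      rwa [hAc, smul_eq_mul] at this
    have h2 : ∑ v ∈ B, up T v ≤ n * h := by
      have := Finset.sum_le_card_nsmul B (up T) h (fun v _ => hup v)
      rwa [hBc, smul_eq_mul] at this
    have h3 : n * h ≤ M * h := Nat.mul_le_mul_right _ hn.le
    nlinarith
  · obtain ⟨a, ha1, ha2⟩ := sum_bound A (up T) h M (fun v _ => hup v) (by rw [hAc]; exact hn)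
    obtain ⟨b, hb1, hb2⟩ := sum_bound B (up T) h M (fun v _ => hup v) (by rw [hBc]; exact hn)
    rw [hAc] at ha2
    rw [hBc] at hb2
    obtain ⟨l, hl1, hl2⟩ := claim hS hV hL hside h a b T hh _ _ ha1 hb1
      (fun v hv => by simpa [A] using (Finset.mem_filter.1 (Finset.mem_filter.1 hv).1).2)
      (fun v hv => by simpa [B] using (Finset.mem_filter.1 (Finset.mem_filter.1 hv).1).2)
      (fun v hv => (Finset.mem_filter.1 hv).2) (fun v hv => (Finset.mem_filter.1 hv).2)
    have h4 := hP l hl1
    have h5 : a + b ≤ t := by omega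
    have h6 : (a + b) * n ≤ t * n := Nat.mul_le_mul_right _ h5
    nlinarith

theorem path_iff_of_length {V : Type} {G : SimpleGraph V} {k : ℕ} {l : List V} (hl : IsP G l)
    (hk : k ≤ l.length) : (pathGraph k) ⊑ G := by
  refine ⟨⟨⟨fun i => l[i.1], ?_⟩, ?_⟩⟩
  · intro i j hij
    rw [pathGraph_adj] at hij
    have hc := List.isChain_iff_getElem.1 hl.2
    rcases hij with h | h
    · have := hc i.1 (by omega)
      simpa only [h] using this
    · have := hc j.1 (by omega)
      simpa only [h] using this.symm
  · intro i j hij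
    have := (List.Nodup.getElem_inj_iff hl.1).1 hij
    exact Fin.ext this

theorem list_of_path {V : Type} {G : SimpleGraph V} {k : ℕ} (h : (pathGraph k) ⊑ G) :
    ∃ l : List V, IsP G l ∧ l.length = k := by
  obtain ⟨f⟩ := h
  refine ⟨List.ofFn (fun i => f i), ⟨?_, ?_⟩, by simp⟩
  · rw [List.nodup_ofFn]
    exact f.injective
  · rw [List.isChain_iff_getElem]
    intro i hi
    simp only [List.getElem_ofFn]
    apply f.toHom.map_adj
    rw [pathGraph_adj]
    simp

end R90.CB
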