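import Mathlib
import Pool.Agent.R90.CB.D

namespace R90.CB

open SimpleGraph Filter Asymptotics

/-- `ex_{b,c}(n, P_k)`: the maximum number of edges of a connected spanning subgraph of `K_{n,n}`
(with parts the two copies of `Fin n`) that contains no copy of the path `P_k` on `k` vertices. -/
noncomputable def exbc (n k : ℕ) : ℕ :=
  sSup {m | ∃ G : SimpleGraph (Fin n ⊕ Fin n), G ≤ completeBipartiteGraph (Fin n) (Fin n) ∧
    G.Connected ∧ ¬ (pathGraph k) ⊑ G ∧ G.edgeSet.ncard = m}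

theorem bdd (n k : ℕ) : BddAbove {m | ∃ G : SimpleGraph (Fin n ⊕ Fin n),
    G ≤ completeBipartiteGraph (Fin n) (Fin n) ∧
    G.Connected ∧ ¬ (pathGraph k) ⊑ G ∧ G.edgeSet.ncard = m} := by
  refine ⟨Nat.card (Sym2 (Fin n ⊕ Fin n)), ?_⟩
  rintro m ⟨G, _, _, _, rfl⟩
  exact Set.ncard_le_card _

theorem final (hT : S_T) (hS : S_S) (hV : S_V) (hL : S_L) (hLB : S_LB) (k : ℕ) (hk : 5 ≤ k) :
    (∀ n, k ≤ n → (∃ G : SimpleGraph (Fin n ⊕ Fin n),
      G ≤ completeBipartiteGraph (Fin n) (Fin n) ∧ G.Connected ∧ ¬ (pathGraph k) ⊑ G ∧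
      G.edgeSet.ncard = exbc n k)) ∧
    (∀ n, k ≤ n → ∀ G : SimpleGraph (Fin n ⊕ Fin n),
      G ≤ completeBipartiteGraph (Fin n) (Fin n) → G.Connected → ¬ (pathGraph k) ⊑ G →
      G.edgeSet.ncard ≤ exbc n k) ∧
    (∃ C : ℕ, ∀ n, k ≤ n → (k - 1) / 2 * n - ((k - 1) / 2 - 1) ≤ exbc n k ∧
      exbc n k ≤ (k - 1) / 2 * n + C) ∧
    (fun n : ℕ => (exbc n k : ℝ)) ~[atTop] (fun n : ℕ => (((k - 1) / 2 : ℕ) : ℝ) * n) := by
  have hex : ∀ n, k ≤ n → (∃ G : SimpleGraph (Fin n ⊕ Fin n),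
      G ≤ completeBipartiteGraph (Fin n) (Fin n) ∧ G.Connected ∧ ¬ (pathGraph k) ⊑ G ∧
      G.edgeSet.ncard = exbc n k) := by
    intro n hn
    obtain ⟨G, hG1, hG2, hG3, _⟩ := hLB k n hk hn
    have hne : {m | ∃ G : SimpleGraph (Fin n ⊕ Fin n),
        G ≤ completeBipartiteGraph (Fin n) (Fin n) ∧
        G.Connected ∧ ¬ (pathGraph k) ⊑ G ∧ G.edgeSet.ncard = m}.Nonempty := by
      refine ⟨G.edgeSet.ncard, G, hG1, hG2, ?_, rfl⟩
      intro hc
      obtain ⟨l, hl, hlk⟩ := list_of_path hc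
      have := hG3 l hl
      omega
    exact Nat.sSup_mem hne (bdd n k)
  have hle : ∀ n, k ≤ n → ∀ G : SimpleGraph (Fin n ⊕ Fin n),
      G ≤ completeBipartiteGraph (Fin n) (Fin n) → G.Connected → ¬ (pathGraph k) ⊑ G →
      G.edgeSet.ncard ≤ exbc n k := by
    intro n _ G h1 h2 h3
    exact le_csSup (bdd n k) ⟨G, h1, h2, h3, rfl⟩
  have hbd : ∃ C : ℕ, ∀ n, k ≤ n → (k - 1) / 2 * n - ((k - 1) / 2 - 1) ≤ exbc n k ∧
      exbc n k ≤ (k - 1) / 2 * n + C := by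
    obtain ⟨C, hC⟩ := upper hT hS hV hL ((k - 1) / 2)
    refine ⟨C, fun n hn => ⟨?_, ?_⟩⟩
    · obtain ⟨G, hG1, hG2, hG3, hG4⟩ := hLB k n hk hn
      have := hle n hn G hG1 hG2 (by
        intro hc
        obtain ⟨l, hl, hlk⟩ := list_of_path hc
        have := hG3 l hl
        omega)
      omega
    · obtain ⟨G, h1, h2, h3, h4⟩ := hex n hn
      rw [← h4]
      apply hC n G h1 h2
      intro l hl
      by_contra hcon
      push Not at hcon
      exact h3 (path_iff_of_length hl (by omega))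
  refine ⟨hex, hle, hbd, ?_⟩
  obtain ⟨C, hC⟩ := hbd
  set t : ℕ := (k - 1) / 2 with ht
  have ht2 : 2 ≤ t := by omega
  -- asymptotics
  have hO : (fun n : ℕ => (exbc n k : ℝ) - (t : ℝ) * n) =O[atTop] (fun _ : ℕ => (1 : ℝ)) := by
    apply IsBigO.of_bound ((t : ℝ) + C)
    filter_upwards [eventually_ge_atTop k] with n hn
    have h := hC n hn
    have h1 : ((t * n : ℕ) : ℝ) ≤ exbc n k + t := by
      have : t * n ≤ exbc n k + t := by omega
      exact_mod_cast this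
    have h2 : ((exbc n k : ℕ) : ℝ) ≤ t * n + C := by exact_mod_cast h.2
    rw [Real.norm_eq_abs, norm_one, mul_one, abs_le]
    push_cast at h1
    have hc0 : (0 : ℝ) ≤ C := Nat.cast_nonneg _
    have ht0 : (0 : ℝ) ≤ t := Nat.cast_nonneg _
    constructor <;> linarith
  have h1o : (fun _ : ℕ => (1 : ℝ)) =o[atTop] (fun n : ℕ => (t : ℝ) * n) := by
    rw [isLittleO_const_left]
    right
    have : Tendsto (fun n : ℕ => (t : ℝ) * n) atTop atTop := by
      apply Tendsto.const_mul_atTop (by positivity)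
      exact tendsto_natCast_atTop_atTop
    exact tendsto_norm_atTop_atTop.comp this
  exact hO.trans_isLittleO h1o

end R90.CB
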