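import Mathlib
import Pool.Agent.R90.CB.Defs

/-! # Piece L: linking two paths inside two root paths (helper883) -/

namespace R90.CB

open SimpleGraph

section

variable {V : Type} (G : SimpleGraph V)

lemma l_rev {l : List V} (h : l.IsChain G.Adj) : l.reverse.IsChain G.Adj := by
  rw [List.isChain_reverse]
  exact h.imp (fun a b h => h.symm)

/-- the walks considered in part (a) -/
def lP (p p' : List V) (U U' : Finset V) (l : List V) : Prop :=
  l.IsChain G.Adj ∧ (∀ w ∈ l, w ∈ p ∨ w ∈ p') ∧ (∃ u ∈ U, l.head? = some u) ∧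
    ∃ u ∈ U', l.getLast? = some u

lemma l_exists (r : V) (p p' : List V) (U U' : Finset V) (hp : IsP G p) (hp' : IsP G p')
    (hr : p.head? = some r) (hr' : p'.head? = some r) (hU : U.Nonempty) (hU' : U'.Nonempty)
    (hUp : ∀ u ∈ U, u ∈ p) (hUp' : ∀ u ∈ U', u ∈ p') : ∃ l, lP G p p' U U' l := by
  obtain ⟨u, hu⟩ := hU
  obtain ⟨u', hu'⟩ := hU'
  obtain ⟨A, B, hAB⟩ := List.append_of_mem (hUp u hu)
  obtain ⟨A', B', hAB'⟩ := List.append_of_mem (hUp' u' hu')
  have hc1 : (A ++ [u]).IsChain G.Adj := by
    have h := hp.2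
    rw [hAB] at h
    exact (List.isChain_split.1 h).1
  have hc2 : (A' ++ [u']).IsChain G.Adj := by
    have h := hp'.2
    rw [hAB'] at h
    exact (List.isChain_split.1 h).1
  have hsub1 : ∀ w ∈ A ++ [u], w ∈ p := by
    intro w hw; rw [hAB]; simp at hw ⊢; tauto
  have hsub2 : ∀ w ∈ A' ++ [u'], w ∈ p' := by
    intro w hw; rw [hAB']; simp at hw ⊢; tauto
  have h1 : (A ++ [u]).head? = some r := by
    rw [hAB] at hr
    cases A with
    | nil => simpa using hr
    | cons a A => simpa using hr
  have h2 : (A' ++ [u']).head? = some r := by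
    rw [hAB'] at hr'
    cases A' with
    | nil => simpa using hr'
    | cons a A => simpa using hr'
  obtain ⟨Y1, hY1⟩ : ∃ Y, A ++ [u] = r :: Y := by
    cases hx : A ++ [u] with
    | nil => simp at hx
    | cons a Y => rw [hx] at h1; simp at h1; subst h1; exact ⟨Y, rfl⟩
  obtain ⟨Y2, hY2⟩ : ∃ Y, A' ++ [u'] = r :: Y := by
    cases hx : A' ++ [u'] with
    | nil => simp at hx
    | cons a Y => rw [hx] at h2; simp at h2; subst h2; exact ⟨Y, rfl⟩
  have e1 : Y1.reverse ++ r :: Y2 = (A ++ [u]).reverse ++ Y2 := by rw [hY1]; simp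
  have e2 : Y1.reverse ++ r :: Y2 = Y1.reverse ++ (A' ++ [u']) := by rw [hY2]
  refine ⟨Y1.reverse ++ r :: Y2, ?_, ?_, ⟨u, hu, ?_⟩, ⟨u', hu', ?_⟩⟩
  · rw [List.isChain_split]
    constructor
    · have := l_rev G hc1
      rw [hY1] at this
      simpa using this
    · rw [← hY2]; exact hc2
  · intro w hw
    rw [e2] at hw
    rcases List.mem_append.1 hw with h | h
    · left
      apply hsub1
      rw [hY1]
      exact List.mem_cons_of_mem _ (List.mem_reverse.1 h)
    · right; exact hsub2 w h
  · rw [e1]; simp
  · rw [e2]; simp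

lemma l_min (p p' : List V) (U U' : Finset V) (h : ∃ l, lP G p p' U U' l) :
    ∃ l, lP G p p' U U' l ∧ ∀ l', lP G p p' U U' l' → l.length ≤ l'.length := by
  classical
  have h2 : ∃ n, ∃ l, lP G p p' U U' l ∧ l.length = n := by
    obtain ⟨l, hl⟩ := h; exact ⟨_, l, hl, rfl⟩
  obtain ⟨l, hl, hn⟩ := Nat.find_spec h2
  exact ⟨l, hl, fun l' hl' => by rw [hn]; exact Nat.find_min' h2 ⟨l', hl', rfl⟩⟩

end

theorem l_lem : S_L := by
  intro V _ G r p p' U U' q q' m m' σ σ' hp hp' hr hr' hU hU' hUp hUp' hσp hσp' hσ'p hσ'p'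
    hσσ' hR hR'
  constructor
  · intro hdis
    obtain ⟨l, hl, hmin⟩ := l_min G p p' U U'
      (l_exists G r p p' U U' hp hp' hr hr' hU hU' hUp hUp')
    obtain ⟨hch, hsub, ⟨u, huU, hhd⟩, ⟨u', huU', hlst⟩⟩ := hl
    have hA : ∀ X w Y, l = X ++ w :: Y → w ∈ U → X = [] := by
      intro X w Y hl hw
      have h1 : lP G p p' U U' (w :: Y) := by
        refine ⟨?_, ?_, ⟨w, hw, rfl⟩, ⟨u', huU', ?_⟩⟩
        · rw [hl] at hch; exact (List.isChain_split.1 hch).2
        · intro z hz; apply hsub; rw [hl]; exact List.mem_append_right _ hz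
        · rw [hl] at hlst; rwa [List.getLast?_append_of_ne_nil _ (by simp)] at hlst
      have h2 := hmin _ h1
      rw [hl] at h2
      simp only [List.length_append] at h2
      exact List.length_eq_zero_iff.1 (by omega)
    have hB : ∀ X w Y, l = X ++ w :: Y → w ∈ U' → Y = [] := by
      intro X w Y hl hw
      have h1 : lP G p p' U U' (X ++ [w]) := by
        refine ⟨?_, ?_, ⟨u, huU, ?_⟩, ⟨w, hw, by simp⟩⟩
        · rw [hl] at hch; exact (List.isChain_split.1 hch).1
        · intro z hz; apply hsub; rw [hl]; simp at hz ⊢; tauto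
        · rw [hl] at hhd
          cases X with
          | nil => simpa using hhd
          | cons a X => simpa using hhd
      have h2 := hmin _ h1
      rw [hl] at h2
      simp only [List.length_append, List.length_cons, List.length_nil] at h2
      exact List.length_eq_zero_iff.1 (by omega)
    have hnd : l.Nodup := by
      rw [List.nodup_iff_sublist]
      intro a ha
      rw [List.cons_sublist_iff] at ha
      obtain ⟨r1, r2, h12, ha1, ha2⟩ := ha
      rw [List.singleton_sublist] at ha2
      obtain ⟨X, Y1, hX⟩ := List.append_of_mem ha1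
      obtain ⟨Y2, Z, hZ⟩ := List.append_of_mem ha2
      have h1 : lP G p p' U U' (X ++ a :: Z) := by
        refine ⟨?_, ?_, ⟨u, huU, ?_⟩, ⟨u', huU', ?_⟩⟩
        · rw [List.isChain_split]
          constructor
          · have : l = X ++ a :: (Y1 ++ r2) := by rw [h12, hX]; simp
            rw [this] at hch
            exact (List.isChain_split.1 hch).1
          · have : l = (r1 ++ Y2) ++ a :: Z := by rw [h12, hZ]; simp
            rw [this] at hch
            exact (List.isChain_split.1 hch).2
        · intro z hz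
          apply hsub
          rw [h12, hX, hZ]
          simp at hz ⊢
          tauto
        · have : l = X ++ a :: (Y1 ++ r2) := by rw [h12, hX]; simp
          rw [this] at hhd
          cases X with
          | nil => simpa using hhd
          | cons b X => simpa using hhd
        · have : l = (r1 ++ Y2) ++ a :: Z := by rw [h12, hZ]; simp
          rw [this, List.getLast?_append_of_ne_nil _ (by simp)] at hlst
          rw [List.getLast?_append_of_ne_nil _ (by simp)]
          exact hlst
      have h2 := hmin _ h1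
      rw [h12, hX, hZ] at h2
      simp only [List.length_append, List.length_cons] at h2
      omega
    -- the middle part
    obtain ⟨l1, hl1⟩ : ∃ l1, l = u :: l1 := by
      cases hx : l with
      | nil => rw [hx] at hhd; simp at hhd
      | cons a Y => rw [hx] at hhd; simp at hhd; subst hhd; exact ⟨Y, rfl⟩
    have hne : u ≠ u' := fun h => by
      subst h
      exact (Finset.disjoint_left.1 hdis huU huU')
    have hl1ne : l1 ≠ [] := by
      intro h
      rw [hl1, h] at hlst
      simp at hlst
      exact hne hlst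
    obtain ⟨M, hM⟩ : ∃ M, l1 = M ++ [u'] := by
      rw [hl1, List.getLast?_cons_of_ne_nil hl1ne] at hlst
      refine ⟨l1.dropLast, ?_⟩
      rw [List.getLast?_eq_some_iff] at hlst
      obtain ⟨ys, hys⟩ := hlst
      rw [hys]; simp
    have hl2 : l = u :: (M ++ [u']) := by rw [hl1, hM]
    have hMU : ∀ w ∈ M, w ∉ U ∧ w ∉ U' ∧ (w ∈ p ∨ w ∈ p') := by
      intro w hw
      obtain ⟨X, Y, hXY⟩ := List.append_of_mem hw
      have h1 : l = (u :: X) ++ w :: (Y ++ [u']) := by rw [hl2, hXY]; simp
      refine ⟨fun h => ?_, fun h => ?_, ?_⟩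
      · have := hA _ _ _ h1 h
        simp at this
      · have := hB _ _ _ h1 h
        simp at this
      · apply hsub; rw [hl2]; simp; right; left; exact hw
    obtain ⟨Q, hQ, hQl, hQm, hQlen⟩ := hR u huU
    obtain ⟨Q', hQ', hQl', hQm', hQlen'⟩ := hR' u' huU'
    obtain ⟨Q0, hQ0⟩ := List.getLast?_eq_some_iff.1 hQl
    obtain ⟨Q0', hQ0'⟩ := List.getLast?_eq_some_iff.1 hQl'
    have hMQ : List.Disjoint M Q := by
      intro w hw hwQ
      obtain ⟨h1, h2, h3⟩ := hMU w hw
      rcases hQm w hwQ with h | ⟨i, h⟩
      · exact h1 h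
      · rcases h3 with h3 | h3
        · exact hσp i h h3
        · exact hσp' i h h3
    have hMQ' : List.Disjoint M Q' := by
      intro w hw hwQ
      obtain ⟨h1, h2, h3⟩ := hMU w hw
      rcases hQm' w hwQ with h | ⟨i, h⟩
      · exact h2 h
      · rcases h3 with h3 | h3
        · exact hσ'p i h h3
        · exact hσ'p' i h h3
    have hQQ' : List.Disjoint Q Q' := by
      intro w hw hw'
      rcases hQm w hw with h | ⟨i, h⟩
      · rcases hQm' w hw' with h' | ⟨j, h'⟩
        · exact Finset.disjoint_left.1 hdis h h'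
        · exact hσ'p j h' (hUp w h)
      · rcases hQm' w hw' with h' | ⟨j, h'⟩
        · exact hσp' i h (hUp' w h')
        · exact hσσ' i j h h'
    refine ⟨Q ++ (M ++ Q'.reverse), ⟨?_, ?_⟩, ?_⟩
    · have hMn : M.Nodup := by
        rw [hl2] at hnd
        exact (List.nodup_cons.1 hnd).2.of_append_left
      refine List.Nodup.append hQ.1 (List.Nodup.append hMn (List.nodup_reverse.2 hQ'.1) ?_) ?_
      · intro w hw hw'
        exact hMQ' hw (List.mem_reverse.1 hw')
      · intro w hw hw'
        rcases List.mem_append.1 hw' with h | h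
        · exact hMQ h hw
        · exact hQQ' hw (List.mem_reverse.1 h)
    · have e : Q ++ (M ++ Q'.reverse) = Q0 ++ u :: (M ++ u' :: Q0'.reverse) := by
        rw [hQ0, hQ0']; simp
      rw [e, List.isChain_split]
      constructor
      · rw [← hQ0]; exact hQ.2
      · have e2 : u :: (M ++ u' :: Q0'.reverse) = (u :: M) ++ u' :: Q0'.reverse := by simp
        rw [e2, List.isChain_split]
        constructor
        · rw [hl2] at hch; simpa using hch
        · have h := l_rev G hQ'.2
          rw [hQ0'] at h
          simpa using h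
    · simp only [List.length_append, List.length_reverse]
      omega
  · intro e he
    have heU : e ∈ U := Finset.mem_of_mem_inter_left (he ▸ Finset.mem_singleton_self e)
    have heU' : e ∈ U' := Finset.mem_of_mem_inter_right (he ▸ Finset.mem_singleton_self e)
    obtain ⟨Q, hQ, hQl, hQm, hQlen⟩ := hR e heU
    obtain ⟨Q', hQ', hQl', hQm', hQlen'⟩ := hR' e heU'
    obtain ⟨Q0, hQ0⟩ := List.getLast?_eq_some_iff.1 hQl
    obtain ⟨Q0', hQ0'⟩ := List.getLast?_eq_some_iff.1 hQl'
    refine ⟨Q ++ Q0'.reverse, ⟨?_, ?_⟩, ?_⟩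
    · have hn : Q0'.Nodup := by
        have := hQ'.1
        rw [hQ0'] at this
        exact this.of_append_left
      refine List.Nodup.append hQ.1 (List.nodup_reverse.2 hn) ?_
      intro w hw hw0
      have hw0' : w ∈ Q0' := List.mem_reverse.1 hw0
      have hw' : w ∈ Q' := by rw [hQ0']; exact List.mem_append_left _ hw0'
      have hwe : w ≠ e := by
        intro h
        subst h
        have := hQ'.1
        rw [hQ0', List.nodup_append'] at this
        exact this.2.2 hw0' (by simp)
      rcases hQm w hw with h | ⟨i, h⟩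
      · rcases hQm' w hw' with h' | ⟨j, h'⟩
        · apply hwe
          have : w ∈ U ∩ U' := Finset.mem_inter.2 ⟨h, h'⟩
          rw [he] at this
          exact Finset.mem_singleton.1 this
        · exact hσ'p j h' (hUp w h)
      · rcases hQm' w hw' with h' | ⟨j, h'⟩
        · exact hσp' i h (hUp' w h')
        · exact hσσ' i j h h'
    · have e1 : Q ++ Q0'.reverse = Q0 ++ e :: Q0'.reverse := by rw [hQ0]; simp
      rw [e1, List.isChain_split]
      constructor
      · rw [← hQ0]; exact hQ.2
      · have h := l_rev G hQ'.2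
        rw [hQ0'] at h
        simpa using h
    · have hlen : Q'.length = Q0'.length + 1 := by rw [hQ0']; simp
      simp only [List.length_append, List.length_reverse]
      omega

end R90.CB
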