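import Pool.Agent.R90.CB.Defs

namespace R90.CB

open SimpleGraph

/-- The lower bound graph. -/
def lbG (t n : ℕ) : SimpleGraph (Fin n ⊕ Fin n) where
  Adj x y := match x, y with
    | Sum.inl i, Sum.inr j => i.val < t - 1 ∨ j.val = 0
    | Sum.inr j, Sum.inl i => i.val < t - 1 ∨ j.val = 0
    | _, _ => False
  symm := ⟨by
    intro x y h
    cases x <;> cases y <;> simp_all⟩
  loopless := ⟨by
    intro x h
    cases x <;> simp_all⟩

/-- The special vertices. -/
def lbS (t n : ℕ) (x : Fin n ⊕ Fin n) : Bool :=
  match x with
  | Sum.inl i => decide (i.val < t - 1)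
  | Sum.inr j => decide (j.val = 0)

theorem lb_meet {t n : ℕ} {x y : Fin n ⊕ Fin n} (h : (lbG t n).Adj x y) :
    lbS t n x = true ∨ lbS t n y = true := by
  cases x <;> cases y <;> simp_all [lbG, lbS]
  tauto

theorem lb_side {t n : ℕ} {x y : Fin n ⊕ Fin n} (h : (lbG t n).Adj x y) :
    x.isLeft ≠ y.isLeft := by
  cases x <;> cases y <;> simp_all [lbG]

theorem lemA (t n : ℕ) : ∀ (m : ℕ) (l : List (Fin n ⊕ Fin n)), l.length ≤ m →
    l.IsChain (lbG t n).Adj → l.length ≤ 2 * (l.filter (lbS t n)).length + 1 := by
  intro m
  induction m with
  | zero =>
    intro l hl _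
    omega
  | succ m ih =>
    intro l hl hc
    match l, hl, hc with
    | [], _, _ => simp
    | [a], _, _ => simp
    | a :: b :: l', hl, hc =>
      have hab : (lbG t n).Adj a b := (List.isChain_cons_cons.1 hc).1
      have hc2 := (List.isChain_cons_cons.1 hc).2
      have hc' : l'.IsChain (lbG t n).Adj := hc2.tail
      have h1 := ih l' (by simp at hl; omega) hc'
      have h2 : (l'.filter (lbS t n)).length + 1 ≤ ((a :: b :: l').filter (lbS t n)).length := by
        rcases lb_meet hab with h | h
        · rw [List.filter_cons_of_pos h]
          simp only [List.length_cons]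
          have : (l'.filter (lbS t n)).length ≤ ((b :: l').filter (lbS t n)).length :=
            List.Sublist.length_le (List.Sublist.filter _ (List.sublist_cons_self b l'))
          omega
        · have h3 : ((b :: l').filter (lbS t n)).length = (l'.filter (lbS t n)).length + 1 := by
            rw [List.filter_cons_of_pos h]; simp
          have : ((b :: l').filter (lbS t n)).length ≤ ((a :: b :: l').filter (lbS t n)).length :=
            List.Sublist.length_le (List.Sublist.filter _ (List.sublist_cons_self a _))
          omega
      simp only [List.length_cons] at *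
      omega

theorem lemB (t n : ℕ) : ∀ (m : ℕ) (d : Fin n ⊕ Fin n) (l : List (Fin n ⊕ Fin n)), l.length ≤ m →
    (d :: l).IsChain (lbG t n).Adj →
    (d :: l).length = 2 * ((d :: l).filter (lbS t n)).length + 1 →
    ∀ x ∈ d :: l, lbS t n x = true → x.isLeft ≠ d.isLeft := by
  intro m
  induction m with
  | zero =>
    intro d l hl hc he x hx hS
    have : l = [] := List.length_eq_zero_iff.mp (by omega)
    subst this
    simp only [List.mem_singleton] at hx
    subst hx
    rw [List.filter_cons_of_pos hS] at he
    simp at he
  | succ m ih =>
    intro d l hl hc he x hx hS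
    match l, hl, hc, he, hx with
    | [], hl, hc, he, hx =>
      simp only [List.mem_singleton] at hx
      subst hx
      rw [List.filter_cons_of_pos hS] at he
      simp at he
    | [b], hl, hc, he, hx =>
      simp only [List.length_cons, List.length_nil] at he
      omega
    | b :: d' :: l', hl, hc, he, hx =>
      have hdb : (lbG t n).Adj d b := (List.isChain_cons_cons.1 hc).1
      have hc2 := (List.isChain_cons_cons.1 hc).2
      have hbd : (lbG t n).Adj b d' := (List.isChain_cons_cons.1 hc2).1
      have hc3 := (List.isChain_cons_cons.1 hc2).2
      have hdS : lbS t n d = false := by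
        by_contra hcon
        have hcon' : lbS t n d = true := by simpa using hcon
        have h1 := lemA t n _ (b :: d' :: l') le_rfl hc2
        rw [List.filter_cons_of_pos hcon'] at he
        simp only [List.length_cons] at he h1
        omega
      have hbS : lbS t n b = true := by
        rcases lb_meet hdb with h | h
        · rw [h] at hdS; cases hdS
        · exact h
      have he' : (d' :: l').length = 2 * ((d' :: l').filter (lbS t n)).length + 1 := by
        have h1 : ((d :: b :: d' :: l').filter (lbS t n)).length
            = ((d' :: l').filter (lbS t n)).length + 1 := by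
          rw [List.filter_cons_of_neg (by rw [hdS]; simp), List.filter_cons_of_pos hbS]
          simp
        rw [h1] at he
        simp only [List.length_cons] at he ⊢
        omega
      have hsd : d'.isLeft = d.isLeft := by
        have h1 := lb_side hdb
        have h2 := lb_side hbd
        cases hd : d.isLeft <;> cases hb : b.isLeft <;> cases hd' : d'.isLeft <;> simp_all
      rw [List.mem_cons, List.mem_cons] at hx
      rcases hx with rfl | rfl | hx
      · rw [hS] at hdS; cases hdS
      · exact fun h => lb_side hdb h.symm
      · have := ih d' l' (by simp only [List.length_cons] at hl; omega) hc3 he' x hx hS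
        rw [← hsd]
        exact this

theorem lb_lem : S_LB := by
  intro k n hk hkn
  obtain ⟨t, ht⟩ : ∃ t, t = (k - 1) / 2 := ⟨_, rfl⟩
  rw [← ht]
  have ht2 : 2 ≤ t := by omega
  have htk : 2 * t + 1 ≤ k := by omega
  have htn : t ≤ n := by omega
  have hn0 : 0 < n := by omega
  let z : Fin n := ⟨0, hn0⟩
  refine ⟨lbG t n, ?_, ?_, ?_, ?_⟩
  · intro x y h
    cases x <;> cases y <;> simp_all [lbG, completeBipartiteGraph]
  · have hreach : ∀ x, (lbG t n).Reachable x (Sum.inr z) := by
      intro x
      cases x with
      | inl i =>
        exact SimpleGraph.Adj.reachable (by simp [lbG, z])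
      | inr j =>
        have h1 : (lbG t n).Adj (Sum.inr j) (Sum.inl z) := by
          simp only [lbG, z]
          left
          omega
        have h2 : (lbG t n).Adj (Sum.inl z) (Sum.inr z) := by
          simp [lbG, z]
        exact h1.reachable.trans h2.reachable
    have : Nonempty (Fin n ⊕ Fin n) := ⟨Sum.inr z⟩
    exact ⟨fun x y => (hreach x).trans (hreach y).symm⟩
  · intro l hl
    by_contra hcon
    push Not at hcon
    have hlen : (l.take (2 * t + 1)).length = 2 * t + 1 := by
      rw [List.length_take]; omega
    obtain ⟨l', hl'⟩ : ∃ l', l' = l.take (2 * t + 1) := ⟨_, rfl⟩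
    rw [← hl'] at hlen
    have hnd : l'.Nodup := by rw [hl']; exact hl.1.sublist (List.take_sublist _ _)
    have hch : l'.IsChain (lbG t n).Adj := by rw [hl']; exact hl.2.take _
    let S : Finset (Fin n ⊕ Fin n) := Finset.univ.filter (fun x => lbS t n x = true)
    have hScard : S.card ≤ t := by
      have hsub : S ⊆ ((Finset.univ.filter (fun i : Fin n => i.val < t - 1)).image Sum.inl) ∪
          {Sum.inr z} := by
        intro x hx
        have hx' : lbS t n x = true := (Finset.mem_filter.1 hx).2
        cases x with
        | inl i =>
          simp [lbS] at hx'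
          simp [hx']
        | inr j =>
          simp [lbS] at hx'
          simp only [Finset.mem_union, Finset.mem_singleton]
          right
          congr 1
          exact Fin.ext hx'
      have h1 := Finset.card_le_card hsub
      have h2 := Finset.card_union_le
        ((Finset.univ.filter (fun i : Fin n => i.val < t - 1)).image
          (Sum.inl : Fin n → Fin n ⊕ Fin n)) {Sum.inr z}
      have h3 : ((Finset.univ.filter (fun i : Fin n => i.val < t - 1)).image
          (Sum.inl : Fin n → Fin n ⊕ Fin n)).card ≤ t - 1 := by
        refine Finset.card_image_le.trans ?_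
        have : (Finset.univ.filter (fun i : Fin n => i.val < t - 1)).card ≤
            (Finset.range (t - 1)).card := by
          apply Finset.card_le_card_of_injOn (fun i => i.val)
          · intro i hi
            simpa using hi
          · intro i _ j _ hij
            exact Fin.ext hij
        simpa using this
      rw [Finset.card_singleton] at h2
      omega
    have hfsub : (l'.filter (lbS t n)).toFinset ⊆ S := by
      intro x hx
      rw [List.mem_toFinset, List.mem_filter] at hx
      exact Finset.mem_filter.2 ⟨Finset.mem_univ _, hx.2⟩
    have hfcard : (l'.filter (lbS t n)).toFinset.card = (l'.filter (lbS t n)).length :=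
      List.toFinset_card_of_nodup (hnd.filter _)
    have hA := lemA t n _ l' le_rfl hch
    have hle := Finset.card_le_card hfsub
    have hc : (l'.filter (lbS t n)).length = t := by omega
    have hEq : (l'.filter (lbS t n)).toFinset = S :=
      Finset.eq_of_subset_of_card_le hfsub (by omega)
    have hmem : ∀ x, lbS t n x = true → x ∈ l' := by
      intro x hx
      have : x ∈ (l'.filter (lbS t n)).toFinset := by
        rw [hEq]; exact Finset.mem_filter.2 ⟨Finset.mem_univ _, hx⟩
      rw [List.mem_toFinset, List.mem_filter] at this
      exact this.1
    have hS1 : lbS t n (Sum.inl z) = true := by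
      simp only [lbS, z, decide_eq_true_eq]; omega
    have hS2 : lbS t n (Sum.inr z) = true := by
      simp [lbS, z]
    match l', hlen, hch, hc, hmem with
    | [], hlen, _, _, _ => simp at hlen
    | d :: l'', hlen, hch, hc, hmem =>
      have hB := lemB t n _ d l'' le_rfl hch (by rw [hc, hlen])
      have h1 := hB _ (hmem _ hS1) hS1
      have h2 := hB _ (hmem _ hS2) hS2
      cases hd : d.isLeft <;> simp_all
  · let P : Finset (Fin n × Fin n) :=
      ((Finset.univ.filter (fun i : Fin n => i.val < t - 1)) ×ˢ Finset.univ) ∪
      ((Finset.univ.filter (fun i : Fin n => ¬ i.val < t - 1)) ×ˢ {z})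
    have hsub : (fun p : Fin n × Fin n => s(Sum.inl p.1, Sum.inr p.2)) '' (P : Set (Fin n × Fin n)) ⊆
        (lbG t n).edgeSet := by
      rintro e ⟨⟨i, j⟩, hp, rfl⟩
      have hp' : (i, j) ∈ P := hp
      simp only [P, Finset.mem_union, Finset.mem_product, Finset.mem_filter, Finset.mem_univ,
        true_and, and_true, Finset.mem_singleton] at hp'
      rw [SimpleGraph.mem_edgeSet]
      simp only [lbG]
      rcases hp' with h | h
      · left; exact h
      · right; rw [h.2]
    have hinj : Set.InjOn (fun p : Fin n × Fin n =>
        (s(Sum.inl p.1, Sum.inr p.2) : Sym2 (Fin n ⊕ Fin n))) (P : Set (Fin n × Fin n)) := by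
      rintro ⟨i, j⟩ _ ⟨i', j'⟩ _ h
      simp at h
      exact Prod.ext h.1 h.2
    have h1 := Set.ncard_le_ncard hsub (Set.toFinite _)
    rw [Set.ncard_image_of_injOn hinj, Set.ncard_coe_finset] at h1
    have hc1 : (Finset.univ.filter (fun i : Fin n => i.val < t - 1)).card = t - 1 := by
      have : (Finset.univ.filter (fun i : Fin n => i.val < t - 1)) =
          (Finset.univ : Finset (Fin (t - 1))).map (Fin.castLEEmb (by omega)) := by
        ext i
        simp only [Finset.mem_filter, Finset.mem_univ, true_and, Finset.mem_map, 
          Fin.castLEEmb_apply]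
        constructor
        · intro h
          exact ⟨⟨i.val, h⟩, Fin.ext rfl⟩
        · rintro ⟨a, rfl⟩
          exact a.2
      rw [this, Finset.card_map, Finset.card_univ, Fintype.card_fin]
    have hc2 : (Finset.univ.filter (fun i : Fin n => ¬ i.val < t - 1)).card = n - (t - 1) := by
      have := Finset.card_filter_add_card_filter_not (s := (Finset.univ : Finset (Fin n)))
        (fun i : Fin n => i.val < t - 1)
      rw [hc1, Finset.card_univ, Fintype.card_fin] at this
      omega
    have hPc : P.card = (t - 1) * n + (n - (t - 1)) := by
      rw [Finset.card_union_of_disjoint, Finset.card_product, Finset.card_product, hc1, hc2]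
      · simp
      · rw [Finset.disjoint_left]
        rintro ⟨i, j⟩ h1 h2
        simp only [Finset.mem_product, Finset.mem_filter, Finset.mem_univ, true_and, and_true] at h1 h2
        exact h2.1 h1
    rw [hPc] at h1
    obtain ⟨r, rfl⟩ : ∃ r, t = r + 1 := ⟨t - 1, by omega⟩
    simp only [Nat.add_sub_cancel] at h1 ⊢
    have : (r + 1) * n = r * n + n := by ring
    omega

end R90.CB
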