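import Pool.Agent.R90.CB.Defs

namespace R90.CB

theorem s_lem : S_S := by
  intro α _ q h
  rcases Nat.eq_zero_or_pos q with rfl | hq
  · intro F _ _
    exact ⟨[], fun i => i.elim0, fun i => i.elim0, fun i => i.elim0, fun i => i.elim0⟩
  induction h with
  | zero =>
    intro F hl hc
    exfalso
    have h1 : F ⊆ {[]} := by
      intro l hlF
      have := hl l hlF
      rw [Finset.mem_singleton]
      exact List.length_eq_zero_iff.mp (by omega)
    have h2 := Finset.card_le_card h1
    rw [Finset.card_singleton] at h2
    simp at hc
    omega
  | succ h ih =>
    intro F hl hc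
    let H : Finset α := Finset.eraseNone (F.image List.head?)
    have hH : ∀ a, a ∈ H ↔ ∃ l ∈ F, l.head? = some a := by
      intro a
      simp only [H, Finset.mem_eraseNone, Finset.mem_image]
    by_cases hcase : q ≤ H.card
    · let c : Fin q → α := fun i => (H.equivFin.symm (Fin.castLE hcase i)).1
      have hcinj : Function.Injective c := by
        intro i j hij
        have h1 := Subtype.ext hij
        have h2 := H.equivFin.symm.injective h1
        exact Fin.castLE_injective hcase h2
      have hcm : ∀ i, c i ∈ H := fun i => (H.equivFin.symm (Fin.castLE hcase i)).2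
      have hex : ∀ i, ∃ s, c i :: s ∈ F := by
        intro i
        obtain ⟨l, hlF, hh⟩ := (hH _).1 (hcm i)
        cases l with
        | nil => simp at hh
        | cons a t =>
          simp at hh
          exact ⟨t, by rw [← hh]; exact hlF⟩
      choose s hs using hex
      exact ⟨[], c, s, hcinj, fun i => by simpa using hs i⟩
    · push Not at hcase
      have hex : ∃ a ∈ H, (q + 1) ^ (h + 1) ≤ (F.filter (fun l => l.head? = some a)).card := by
        by_contra hcon
        push Not at hcon
        have hsub : F ⊆ {[]} ∪ H.biUnion (fun a => F.filter (fun l => l.head? = some a)) := by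
          intro l hlF
          cases l with
          | nil => simp
          | cons a t =>
            rw [Finset.mem_union]
            right
            rw [Finset.mem_biUnion]
            exact ⟨a, (hH a).2 ⟨_, hlF, rfl⟩, Finset.mem_filter.2 ⟨hlF, rfl⟩⟩
        have h1 := Finset.card_le_card hsub
        have h2 := Finset.card_union_le ({[]} : Finset (List α))
          (H.biUnion (fun a => F.filter (fun l => l.head? = some a)))
        have h3 : (H.biUnion (fun a => F.filter (fun l => l.head? = some a))).card
            ≤ H.card * (q + 1) ^ (h + 1) :=
          Finset.card_biUnion_le_card_mul _ _ _ (fun a ha => (hcon a ha).le)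
        rw [Finset.card_singleton] at h2
        have h4 : H.card * (q + 1) ^ (h + 1) ≤ (q - 1) * (q + 1) ^ (h + 1) :=
          Nat.mul_le_mul_right _ (by omega)
        have h5 : 0 < (q + 1) ^ (h + 1) := by positivity
        have h6 : (q + 1) ^ (h + 1 + 1) = (q - 1) * (q + 1) ^ (h + 1) + 2 * (q + 1) ^ (h + 1) := by
          rw [pow_succ (q + 1) (h + 1)]
          obtain ⟨r, rfl⟩ : ∃ r, q = r + 1 := ⟨q - 1, by omega⟩
          simp only [Nat.add_sub_cancel]
          ring
        omega
      obtain ⟨a, _, hcard⟩ := hex
      let F' := (F.filter (fun l => l.head? = some a)).image List.tail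
      have hmem : ∀ t, t ∈ F' ↔ a :: t ∈ F := by
        intro t
        simp only [F', Finset.mem_image, Finset.mem_filter]
        constructor
        · rintro ⟨l, ⟨hlF, hh⟩, ht⟩
          cases l with
          | nil => simp at hh
          | cons b u =>
            simp at hh ht
            rw [← hh, ← ht]
            exact hlF
        · intro ht
          exact ⟨_, ⟨ht, rfl⟩, rfl⟩
      have hcard' : F'.card = (F.filter (fun l => l.head? = some a)).card := by
        apply Finset.card_image_of_injOn
        intro l1 h1 l2 h2 h12
        simp only [Finset.coe_filter, Set.mem_setOf_eq] at h1 h2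
        cases l1 with
        | nil => simp at h1
        | cons b u =>
          cases l2 with
          | nil => simp at h2
          | cons b' u' =>
            simp at h1 h2 h12
            rw [h1.2, h2.2, h12]
      obtain ⟨p, c, s, hc1, hc2⟩ := ih F' (by
        intro t ht
        have := hl _ ((hmem t).1 ht)
        simp at this
        omega) (by rw [hcard']; exact hcard)
      refine ⟨a :: p, c, s, hc1, fun i => ?_⟩
      have := (hmem _).1 (hc2 i)
      simpa using this

end R90.CB
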