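import Mathlib
import Pool.Agent.R90.CB.Defs

/-! # Piece T: a normal spanning tree exists (helper883) -/

namespace R90.CB

open SimpleGraph

section

variable {V : Type} [DecidableEq V] (G : SimpleGraph V)

/-- one step inside `D` -/
def tR (D : Finset V) (a b : V) : Prop := G.Adj a b ∧ a ∈ D ∧ b ∈ D

/-- joined inside `D` -/
def tJ (D : Finset V) : V → V → Prop := Relation.ReflTransGen (tR G D)

lemma tJ_symm {D : Finset V} {a b : V} (h : tJ G D a b) : tJ G D b a := by
  induction h with
  | refl => exact Relation.ReflTransGen.refl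
  | tail _ hbc ih => exact Relation.ReflTransGen.head ⟨hbc.1.symm, hbc.2.2, hbc.2.1⟩ ih

/-- the component of `v` inside `D` -/
noncomputable def tC (D : Finset V) (v : V) : Finset V :=
  open Classical in D.filter (fun w => tJ G D v w)

lemma mem_tC {D : Finset V} {v w : V} : w ∈ tC G D v ↔ w ∈ D ∧ tJ G D v w := by
  classical
  simp [tC]

lemma tC_eq {D : Finset V} {v w : V} (h : tJ G D v w) : tC G D v = tC G D w := by
  ext x
  rw [mem_tC, mem_tC]
  exact ⟨fun hx => ⟨hx.1, (tJ_symm G h).trans hx.2⟩, fun hx => ⟨hx.1, h.trans hx.2⟩⟩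

lemma tJ_restrict {D : Finset V} {v w : V} (hv : v ∈ D) (h : tJ G D v w) :
    tJ G (tC G D v) v w := by
  induction h with
  | refl => exact Relation.ReflTransGen.refl
  | tail hab hbc ih =>
    refine ih.tail ⟨hbc.1, ?_, ?_⟩
    · exact (mem_tC G).2 ⟨hbc.2.1, hab⟩
    · exact (mem_tC G).2 ⟨hbc.2.2, hab.tail hbc⟩

lemma t_neighbour {D : Finset V} {r v : V} (h : tJ G D r v) :
    v = r ∨ ∃ ρ ∈ D.erase r, G.Adj r ρ ∧ tJ G (D.erase r) ρ v := by
  induction h with
  | refl => exact Or.inl rfl
  | @tail b c hab hbc ih =>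
    by_cases hc : c = r
    · exact Or.inl hc
    right
    have hcD : c ∈ D.erase r := Finset.mem_erase.2 ⟨hc, hbc.2.2⟩
    by_cases hb : b = r
    · subst hb
      exact ⟨c, hcD, hbc.1, Relation.ReflTransGen.refl⟩
    · rcases ih with h1 | ⟨ρ, h1, h2, h3⟩
      · exact absurd h1 hb
      · exact ⟨ρ, h1, h2, h3.tail ⟨hbc.1, Finset.mem_erase.2 ⟨hb, hbc.2.1⟩, hcD⟩⟩

/-- the property of the tree paths inside `D` with root `r` -/
def tP (D : Finset V) (r : V) (pth : V → List V) : Prop :=
  ∀ v ∈ D, IsP G (pth v) ∧ (∀ w ∈ pth v, w ∈ D) ∧ (pth v).head? = some r ∧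
    (pth v).getLast? = some v ∧ (∀ w ∈ pth v, pth w <+: pth v) ∧
    (∀ w ∈ D, G.Adj v w → v ∈ pth w ∨ w ∈ pth v)

lemma t_main (n : ℕ) : ∀ D : Finset V, D.card = n → ∀ r ∈ D, (∀ v ∈ D, tJ G D r v) →
    ∃ pth : V → List V, tP G D r pth := by
  classical
  induction n using Nat.strong_induction_on with
  | _ n ih =>
  intro D hD r hr hJ
  set D' := D.erase r with hD'
  have hcard : D'.card < n := by
    rw [hD', Finset.card_erase_of_mem hr, hD]
    have : 0 < D.card := Finset.card_pos.2 ⟨r, hr⟩
    omega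
  have hgood : ∀ v ∈ D', ∃ x : V × (V → List V), x.1 ∈ tC G D' v ∧ G.Adj r x.1 ∧
      tP G (tC G D' v) x.1 x.2 := by
    intro v hv
    have hvD : v ∈ D := Finset.mem_of_mem_erase hv
    rcases t_neighbour G (hJ v hvD) with h | ⟨ρ, h1, h2, h3⟩
    · exact absurd h (Finset.ne_of_mem_erase hv)
    have hC : tC G D' v = tC G D' ρ := (tC_eq G h3).symm
    have hρ : ρ ∈ tC G D' v := by rw [hC]; exact (mem_tC G).2 ⟨h1, Relation.ReflTransGen.refl⟩
    have hsub : tC G D' v ⊆ D' := fun x hx => ((mem_tC G).1 hx).1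
    obtain ⟨pth, hp⟩ := ih (tC G D' v).card (lt_of_le_of_lt (Finset.card_le_card hsub) hcard)
      (tC G D' v) rfl ρ hρ (by
        intro w hw
        rw [hC] at hw ⊢
        exact tJ_restrict G h1 ((mem_tC G).1 hw).2)
    exact ⟨(ρ, pth), hρ, h2, hp⟩
  -- choice depending only on the component
  let Q : Finset V → V × (V → List V) → Prop := fun C x => x.1 ∈ C ∧ G.Adj r x.1 ∧ tP G C x.1 x.2
  let F : Finset V → V × (V → List V) := fun C =>
    if h : ∃ x, Q C x then h.choose else (r, fun _ => [])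
  have hF : ∀ v ∈ D', Q (tC G D' v) (F (tC G D' v)) := by
    intro v hv
    have h : ∃ x, Q (tC G D' v) x := hgood v hv
    have : F (tC G D' v) = h.choose := dif_pos h
    rw [this]
    exact h.choose_spec
  have hself : ∀ v ∈ D', v ∈ tC G D' v := fun v hv => (mem_tC G).2 ⟨hv, Relation.ReflTransGen.refl⟩
  have hrC : ∀ v, r ∉ tC G D' v := fun v h => (Finset.notMem_erase r D) ((mem_tC G).1 h).1
  obtain ⟨f, hfr, hfn⟩ : ∃ f : V → List V, f r = [r] ∧
      ∀ v, v ≠ r → f v = r :: (F (tC G D' v)).2 v :=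
    ⟨fun v => if v = r then [r] else r :: (F (tC G D' v)).2 v, if_pos rfl, fun v h => if_neg h⟩
  refine ⟨f, ?_⟩
  intro v hv
  by_cases hvr : v = r
  · subst hvr
    rw [hfr]
    refine ⟨?_, ?_, ?_, ?_, ?_, ?_⟩
    · simp [IsP]
    · intro w hw; simp at hw; subst hw; exact hv
    · simp
    · simp
    · intro w hw; simp at hw; subst hw; simp [hfr]
    · intro w hw hadj
      left
      have : w ≠ v := fun h => by subst h; exact G.irrefl hadj
      simp [hfn w this]
  · have hv' : v ∈ D' := Finset.mem_erase.2 ⟨hvr, hv⟩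
    obtain ⟨h1, h2, h3⟩ := hF v hv'
    obtain ⟨g1, g2, g3, g4, g5, g6⟩ := h3 v (hself v hv')
    set L := (F (tC G D' v)).2 v with hL
    have hpv : f v = r :: L := hfn v hvr
    rw [hpv]
    have hrL : r ∉ L := fun h => hrC v (g2 r h)
    obtain ⟨a, L', hLe⟩ : ∃ a L', L = a :: L' := by
      cases hLc : L with
      | nil => rw [hLc] at g3; simp at g3
      | cons a L' => exact ⟨a, L', rfl⟩
    refine ⟨?_, ?_, ?_, ?_, ?_, ?_⟩
    · refine ⟨List.nodup_cons.2 ⟨hrL, g1.1⟩, ?_⟩
      have g12 := g1.2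
      rw [hLe] at g3 g12 ⊢
      simp only [List.head?_cons, Option.some.injEq] at g3
      rw [List.isChain_cons_cons]
      exact ⟨by rw [g3]; exact h2, g12⟩
    · intro w hw
      rcases List.mem_cons.1 hw with rfl | hw
      · exact hr
      · exact Finset.mem_of_mem_erase ((mem_tC G).1 (g2 w hw)).1
    · simp
    · rw [hLe] at g4 ⊢
      rw [List.getLast?_cons_cons]
      exact g4
    · intro w hw
      rcases List.mem_cons.1 hw with rfl | hw
      · rw [hfr]; simp
      · have hwC := g2 w hw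
        have hw' := (mem_tC G).1 hwC
        have hwr : w ≠ r := fun h => by subst h; exact hrC v hwC
        rw [hfn w hwr]
        have hCe : tC G D' w = tC G D' v := (tC_eq G hw'.2).symm
        rw [hCe]
        exact (List.prefix_cons_inj r).2 (g5 w hw)
    · intro w hw hadj
      by_cases hwr : w = r
      · right; subst hwr; simp
      · rw [hfn w hwr]
        have hw' : w ∈ D' := Finset.mem_erase.2 ⟨hwr, hw⟩
        have hJvw : tJ G D' v w := Relation.ReflTransGen.single ⟨hadj, hv', hw'⟩
        have hCe : tC G D' w = tC G D' v := (tC_eq G hJvw).symm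
        rw [hCe]
        rcases g6 w ((mem_tC G).2 ⟨hw', hJvw⟩) hadj with h | h
        · left; exact List.mem_cons_of_mem _ h
        · right; exact List.mem_cons_of_mem _ h

end

theorem t_lem : S_T := by
  intro V _ _ G hG
  obtain ⟨r⟩ := hG.nonempty
  obtain ⟨pth, hp⟩ := t_main G (Finset.univ : Finset V).card Finset.univ rfl r (Finset.mem_univ r) (by
    intro v _
    have key : ∀ w, Relation.ReflTransGen G.Adj r w → tJ G Finset.univ r w := by
      intro w h
      induction h with
      | refl => exact Relation.ReflTransGen.refl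
      | tail _ hbc ih => exact ih.tail ⟨hbc, Finset.mem_univ _, Finset.mem_univ _⟩
    exact key v ((G.reachable_iff_reflTransGen r v).1 (hG.preconnected r v)))
  exact ⟨{ root := r, pth := pth,
            isP := fun v => (hp v (Finset.mem_univ v)).1,
            hd := fun v => (hp v (Finset.mem_univ v)).2.2.1,
            lst := fun v => (hp v (Finset.mem_univ v)).2.2.2.1,
            pre := fun v w hw => (hp v (Finset.mem_univ v)).2.2.2.2.1 w hw,
            cmp := fun v w hadj => (hp v (Finset.mem_univ v)).2.2.2.2.2 w (Finset.mem_univ w) hadj }⟩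

end R90.CB
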