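import Pool.Agent.R90.CB.Defs

/-!
# Piece V: zigzag paths through a fan
-/

namespace R90.CB

open SimpleGraph

theorem v_app {V : Type} {G : SimpleGraph V} {l1 l2 : List V} (h1 : IsP G l1) (h2 : IsP G l2)
    (hd : List.Disjoint l1 l2) (ha : ∀ a ∈ l1.getLast?, ∀ b ∈ l2.head?, G.Adj a b) :
    IsP G (l1 ++ l2) :=
  ⟨List.nodup_append'.2 ⟨h1.1, h2.1, hd⟩, List.isChain_append.2 ⟨h1.2, h2.2, ha⟩⟩

theorem v_rev {V : Type} {G : SimpleGraph V} {l : List V} (h : IsP G l) : IsP G l.reverse := by
  refine ⟨List.nodup_reverse.2 h.1, ?_⟩
  rw [List.isChain_reverse]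
  exact h.2.imp (fun a b hab => hab.symm)

theorem v_sing {V : Type} {G : SimpleGraph V} (x : V) : IsP G [x] :=
  ⟨List.nodup_singleton x, List.isChain_singleton x⟩

/-- the zigzag list `n_0, v_1, n_1, v_2, n_2, ...` -/
def v_zig {V : Type} : List V → List V → List V
  | [], _ => []
  | [n], _ => [n]
  | _ :: _ :: _, [] => []
  | n :: n' :: ns, v :: vs => n :: v :: v_zig (n' :: ns) vs

theorem v_zig_mem {V : Type} (L vs : List V) : ∀ w ∈ v_zig L vs, w ∈ L ∨ w ∈ vs := by
  induction L, vs using v_zig.induct with
  | case1 vs => simp [v_zig]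
  | case2 n vs => simp [v_zig]
  | case3 n n' ns => simp [v_zig]
  | case4 n n' ns v vs ih =>
    intro w hw
    rw [v_zig, List.mem_cons, List.mem_cons] at hw
    rcases hw with rfl | rfl | hw
    · left; simp
    · right; simp
    · rcases ih w hw with h | h
      · left; exact List.mem_cons_of_mem _ h
      · right; exact List.mem_cons_of_mem _ h

theorem v_zig_head {V : Type} (n : V) (L vs : List V) (hl : (n :: L).length ≤ vs.length + 1) :
    (v_zig (n :: L) vs).head? = some n := by
  cases L with
  | nil => rfl
  | cons n' L =>
    cases vs with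
    | nil => simp at hl
    | cons v vs => rfl

theorem v_zig_last {V : Type} (L vs : List V) :
    L.length ≤ vs.length + 1 → (v_zig L vs).getLast? = L.getLast? := by
  induction L, vs using v_zig.induct with
  | case1 vs => intro _; simp [v_zig]
  | case2 n vs => intro _; simp [v_zig]
  | case3 n n' ns => intro h; simp at h
  | case4 n n' ns v vs ih =>
    intro h
    have h' : (n' :: ns).length ≤ vs.length + 1 := by simpa using h
    have e := ih h'
    have hne : v_zig (n' :: ns) vs ≠ [] := by
      intro h0
      have := v_zig_head n' ns vs h'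
      rw [h0] at this
      simp at this
    rw [v_zig]
    rw [List.getLast?_cons_cons, List.getLast?_cons_of_ne_nil hne, e,
      List.getLast?_cons_cons]

theorem v_zig_len {V : Type} (L vs : List V) :
    L.length ≤ vs.length + 1 → (v_zig L vs).length = 2 * L.length - 1 := by
  induction L, vs using v_zig.induct with
  | case1 vs => intro _; simp [v_zig]
  | case2 n vs => intro _; simp [v_zig]
  | case3 n n' ns => intro h; simp at h
  | case4 n n' ns v vs ih =>
    intro h
    have h' : (n' :: ns).length ≤ vs.length + 1 := by simpa using h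
    have e := ih h'
    rw [v_zig, List.length_cons, List.length_cons, e]
    simp only [List.length_cons]
    omega

theorem v_zig_isP {V : Type} {G : SimpleGraph V} (L vs : List V) :
    L.length ≤ vs.length + 1 → L.Nodup → vs.Nodup → List.Disjoint L vs →
    (∀ n ∈ L, ∀ v ∈ vs, G.Adj n v) → IsP G (v_zig L vs) := by
  induction L, vs using v_zig.induct with
  | case1 vs => intro _ _ _ _ _; exact ⟨by simp [v_zig], by simp [v_zig]⟩
  | case2 n vs => intro _ _ _ _ _; exact v_sing n
  | case3 n n' ns => intro h; simp at h
  | case4 n n' ns v vs ih =>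
    intro h hL hv hd ha
    have h' : (n' :: ns).length ≤ vs.length + 1 := by simpa using h
    have hL' := List.nodup_cons.1 hL
    have hv' := List.nodup_cons.1 hv
    have hd' : List.Disjoint (n' :: ns) vs := fun a h1 h2 =>
      hd (List.mem_cons_of_mem _ h1) (List.mem_cons_of_mem _ h2)
    have ih' := ih h' hL'.2 hv'.2 hd' (fun n hn v hv =>
      ha n (List.mem_cons_of_mem _ hn) v (List.mem_cons_of_mem _ hv))
    have hnv : G.Adj n v := ha n (by simp) v (by simp)
    have hn'v : G.Adj n' v := ha n' (by simp) v (by simp)
    have h1 : IsP G [n, v] := ⟨by simp [hnv.ne], by simp [hnv]⟩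
    have h2 : v_zig (n :: n' :: ns) (v :: vs) = [n, v] ++ v_zig (n' :: ns) vs := rfl
    rw [h2]
    refine v_app h1 ih' ?_ ?_
    · intro a h3 h4
      have h5 := v_zig_mem _ _ a h4
      simp only [List.mem_cons, List.not_mem_nil, or_false] at h3
      rcases h3 with rfl | rfl
      · rcases h5 with h5 | h5
        · exact hL'.1 h5
        · exact hd (by simp) (List.mem_cons_of_mem _ h5)
      · rcases h5 with h5 | h5
        · exact hd (List.mem_cons_of_mem _ h5) (by simp)
        · exact hv'.1 h5
    · intro a h3 b h4
      rw [v_zig_head n' ns vs h'] at h4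
      simp only [List.getLast?_cons_cons, List.getLast?_singleton, Option.mem_def,
        Option.some.injEq] at h3 h4
      subst h3; subst h4
      exact hn'v.symm

theorem v_lem : S_V := by
  intro V _ G x N q g σ hF hg hq
  obtain ⟨q', rfl⟩ : ∃ q', q = q' + 2 := ⟨q - 2, by omega⟩
  have hq' : N.card ≤ q' := by omega
  choose c hc hxc using hF.hd
  choose v hv hNv using hF.lst
  have hvm : ∀ i, v i ∈ σ i := fun i => List.mem_of_getLast? (hv i)
  have hcm : ∀ i, c i ∈ σ i := fun i => List.mem_of_head? (hc i)
  have h01 : (0 : Fin (q' + 2)) ≠ 1 := by simp [Fin.ext_iff]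
  have hvinj : Function.Injective v := by
    intro i j hij
    by_contra hne
    have h1 := hvm i
    have h2 := hvm j
    rw [← hij] at h2
    exact hF.dj i j hne h1 h2
  obtain ⟨vs, hvs⟩ : ∃ vs : List V, vs = List.ofFn (fun i : Fin q' => v i.succ.succ) := ⟨_, rfl⟩
  have hvsl : vs.length = q' := by rw [hvs]; simp
  have hvsn : vs.Nodup := by
    rw [hvs, List.nodup_ofFn]
    intro i j hij
    exact Fin.succ_injective _ (Fin.succ_injective _ (hvinj hij))
  have hvsm : ∀ w ∈ vs, ∃ i : Fin q', w = v i.succ.succ := by
    intro w hw
    rw [hvs, List.mem_ofFn] at hw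
    obtain ⟨i, hi⟩ := hw
    exact ⟨i, hi.symm⟩
  have hvs0 : ∀ w ∈ vs, w ∉ σ 0 := by
    intro w hw h0
    obtain ⟨i, rfl⟩ := hvsm w hw
    exact hF.dj i.succ.succ 0 (Fin.succ_ne_zero _) (hvm _) h0
  have hvs1 : ∀ w ∈ vs, w ∉ σ 1 := by
    intro w hw h0
    obtain ⟨i, rfl⟩ := hvsm w hw
    refine hF.dj i.succ.succ 1 ?_ (hvm _) h0
    simp [Fin.ext_iff]
  have hvsN : ∀ w ∈ vs, w ∉ N := by
    intro w hw h0
    obtain ⟨i, rfl⟩ := hvsm w hw
    exact hF.nN _ _ h0 (hvm _)
  have hvsx : ∀ w ∈ vs, w ≠ x := by
    intro w hw h0
    obtain ⟨i, rfl⟩ := hvsm w hw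
    exact hF.nx i.succ.succ (h0 ▸ hvm _)
  have hvsA : ∀ n ∈ N, ∀ w ∈ vs, G.Adj n w := by
    intro n hn w hw
    obtain ⟨i, rfl⟩ := hvsm w hw
    exact hNv _ n hn
  -- the list of `N` ending in `e`
  have key : ∀ e ∈ N, ∃ L : List V, L.Nodup ∧ (∀ w, w ∈ L ↔ w ∈ N) ∧ L.getLast? = some e ∧
      L.length = N.card := by
    intro e he
    refine ⟨(N.erase e).toList ++ [e], ?_, ?_, ?_, ?_⟩
    · rw [List.nodup_append']
      refine ⟨Finset.nodup_toList _, List.nodup_singleton e, ?_⟩
      intro a h1 h2
      rw [Finset.mem_toList] at h1
      rw [List.mem_singleton] at h2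
      rw [h2] at h1
      exact (Finset.notMem_erase e N) h1
    · intro w
      rw [List.mem_append, Finset.mem_toList, List.mem_singleton, Finset.mem_erase]
      constructor
      · rintro (h | h)
        · exact h.2
        · rw [h]; exact he
      · intro h
        by_cases hwe : w = e
        · right; exact hwe
        · left; exact ⟨hwe, h⟩
    · simp
    · rw [List.length_append, Finset.length_toList, Finset.card_erase_of_mem he,
        List.length_singleton]
      have : 0 < N.card := Finset.card_pos.2 ⟨e, he⟩
      omega
  -- data of the zigzag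
  have zz : ∀ e ∈ N, ∃ Z : List V, IsP G Z ∧ Z.getLast? = some e ∧ Z.length = 2 * N.card - 1 ∧
      (∀ w ∈ Z, w ∈ N ∨ w ∈ vs) ∧ (∃ n ∈ N, Z.head? = some n) := by
    intro e he
    obtain ⟨L, hL1, hL2, hL3, hL4⟩ := key e he
    have hlen : L.length ≤ vs.length + 1 := by rw [hL4, hvsl]; omega
    refine ⟨v_zig L vs, ?_, ?_, ?_, ?_, ?_⟩
    · refine v_zig_isP L vs hlen hL1 hvsn ?_ ?_
      · intro a h1 h2
        exact hvsN a h2 ((hL2 a).1 h1)
      · intro n hn w hw
        exact hvsA n ((hL2 n).1 hn) w hw
    · rw [v_zig_last L vs hlen, hL3]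
    · rw [v_zig_len L vs hlen, hL4]
    · intro w hw
      rcases v_zig_mem L vs w hw with h | h
      · left; exact (hL2 w).1 h
      · right; exact h
    · cases L with
      | nil => simp at hL3
      | cons n L =>
        exact ⟨n, (hL2 n).1 (by simp), v_zig_head n L vs hlen⟩
  refine ⟨?_, ?_, ?_, ?_⟩
  · -- part 1
    intro e he
    obtain ⟨Z, hZ1, hZ2, hZ3, hZ4, n, hn, hZ5⟩ := zz e he
    refine ⟨σ 0 ++ Z, ?_, ?_, ?_, ?_⟩
    · refine v_app (hF.isP 0) hZ1 ?_ ?_
      · intro a h1 h2
        rcases hZ4 a h2 with h | h
        · exact hF.nN 0 a h h1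
        · exact hvs0 a h h1
      · intro a h1 b h2
        rw [hv 0, Option.mem_def, Option.some.injEq] at h1
        rw [hZ5, Option.mem_def, Option.some.injEq] at h2
        subst h1; subst h2
        exact (hNv 0 n hn).symm
    · rw [List.getLast?_append, hZ2]; rfl
    · intro w hw
      rw [List.mem_append] at hw
      rcases hw with h | h
      · right; exact ⟨0, h⟩
      · rcases hZ4 w h with h | h
        · left; exact h
        · right
          obtain ⟨i, rfl⟩ := hvsm w h
          exact ⟨_, hvm _⟩
    · rw [List.length_append, hZ3]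
      have := hg 0
      omega
  · -- part 2
    intro hx e he
    obtain ⟨Z, hZ1, hZ2, hZ3, hZ4, n, hn, hZ5⟩ := zz e he
    have hb : IsP G (σ 1 ++ Z) := by
      refine v_app (hF.isP 1) hZ1 ?_ ?_
      · intro a h1 h2
        rcases hZ4 a h2 with h | h
        · exact hF.nN 1 a h h1
        · exact hvs1 a h h1
      · intro a h1 b h2
        rw [hv 1, Option.mem_def, Option.some.injEq] at h1
        rw [hZ5, Option.mem_def, Option.some.injEq] at h2
        subst h1; subst h2
        exact (hNv 1 n hn).symm
    have hxb : IsP G ([x] ++ (σ 1 ++ Z)) := by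
      refine v_app (v_sing x) hb ?_ ?_
      · intro a h1 h2
        rw [List.mem_singleton] at h1
        subst h1
        rw [List.mem_append] at h2
        rcases h2 with h | h
        · exact hF.nx 1 h
        · rcases hZ4 a h with h | h
          · exact hx h
          · exact hvsx a h rfl
      · intro a h1 b h2
        rw [List.getLast?_singleton, Option.mem_def, Option.some.injEq] at h1
        rw [List.head?_append, hc 1, Option.mem_def, Option.some_or, Option.some.injEq] at h2
        subst h1; subst h2
        exact hxc 1
    refine ⟨(σ 0).reverse ++ ([x] ++ (σ 1 ++ Z)), ?_, ?_, ?_, ?_⟩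
    · refine v_app (v_rev (hF.isP 0)) hxb ?_ ?_
      · intro a h1 h2
        rw [List.mem_reverse] at h1
        rw [List.mem_append, List.mem_append, List.mem_singleton] at h2
        rcases h2 with h | h | h
        · subst h; exact hF.nx 0 h1
        · exact hF.dj 0 1 h01 h1 h
        · rcases hZ4 a h with h | h
          · exact hF.nN 0 a h h1
          · exact hvs0 a h h1
      · intro a h1 b h2
        rw [List.getLast?_reverse, hc 0, Option.mem_def, Option.some.injEq] at h1
        rw [List.singleton_append, List.head?_cons, Option.mem_def, Option.some.injEq] at h2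
        subst h1; subst h2
        exact (hxc 0).symm
    · rw [List.getLast?_append, List.getLast?_append, List.getLast?_append, hZ2]; rfl
    · intro w hw
      rw [List.mem_append, List.mem_append, List.mem_append, List.mem_reverse,
        List.mem_singleton] at hw
      rcases hw with h | h | h | h
      · right; exact ⟨0, h⟩
      · left; rw [h]; exact Finset.mem_insert_self _ _
      · right; exact ⟨1, h⟩
      · rcases hZ4 w h with h | h
        · left; exact Finset.mem_insert_of_mem h
        · right
          obtain ⟨i, rfl⟩ := hvsm w h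
          exact ⟨_, hvm _⟩
    · rw [List.length_append, List.length_append, List.length_append, List.length_reverse,
        List.length_singleton, hZ3]
      have h1 := hg 0
      have h2 := hg 1
      have : 0 < N.card := Finset.card_pos.2 ⟨e, he⟩
      omega
  · -- part 3
    intro hx hne
    obtain ⟨e, he⟩ := hne
    obtain ⟨Z, hZ1, hZ2, hZ3, hZ4, n, hn, hZ5⟩ := zz e he
    have ha : IsP G (σ 0 ++ Z) := by
      refine v_app (hF.isP 0) hZ1 ?_ ?_
      · intro a h1 h2
        rcases hZ4 a h2 with h | h
        · exact hF.nN 0 a h h1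
        · exact hvs0 a h h1
      · intro a h1 b h2
        rw [hv 0, Option.mem_def, Option.some.injEq] at h1
        rw [hZ5, Option.mem_def, Option.some.injEq] at h2
        subst h1; subst h2
        exact (hNv 0 n hn).symm
    have hb : IsP G ((σ 1).reverse ++ [x]) := by
      refine v_app (v_rev (hF.isP 1)) (v_sing x) ?_ ?_
      · intro a h1 h2
        rw [List.mem_reverse] at h1
        rw [List.mem_singleton] at h2
        subst h2
        exact hF.nx 1 h1
      · intro a h1 b h2
        rw [List.getLast?_reverse, hc 1, Option.mem_def, Option.some.injEq] at h1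
        rw [List.head?_cons, Option.mem_def, Option.some.injEq] at h2
        subst h1; subst h2
        exact (hxc 1).symm
    refine ⟨(σ 0 ++ Z) ++ ((σ 1).reverse ++ [x]), ?_, ?_, ?_, ?_⟩
    · refine v_app ha hb ?_ ?_
      · intro a h1 h2
        rw [List.mem_append] at h1
        rw [List.mem_append, List.mem_reverse, List.mem_singleton] at h2
        rcases h2 with h2 | h2
        · rcases h1 with h | h
          · exact hF.dj 0 1 h01 h h2
          · rcases hZ4 a h with h | h
            · exact hF.nN 1 a h h2
            · exact hvs1 a h h2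
        · subst h2
          rcases h1 with h | h
          · exact hF.nx 0 h
          · rcases hZ4 a h with h | h
            · exact hx h
            · exact hvsx a h rfl
      · intro a h1 b h2
        rw [List.getLast?_append, hZ2, Option.some_or, Option.mem_def, Option.some.injEq] at h1
        rw [List.head?_append, List.head?_reverse, hv 1, Option.some_or, Option.mem_def,
          Option.some.injEq] at h2
        subst h1; subst h2
        exact hNv 1 e he
    · rw [List.getLast?_append, List.getLast?_append]; simp
    · intro w hw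
      rw [List.mem_append, List.mem_append, List.mem_append, List.mem_reverse,
        List.mem_singleton] at hw
      rcases hw with (h | h) | h | h
      · right; exact ⟨0, h⟩
      · rcases hZ4 w h with h | h
        · left; exact Finset.mem_insert_of_mem h
        · right
          obtain ⟨i, rfl⟩ := hvsm w h
          exact ⟨_, hvm _⟩
      · right; exact ⟨1, h⟩
      · left; rw [h]; exact Finset.mem_insert_self _ _
    · rw [List.length_append, List.length_append, List.length_append, List.length_reverse,
        List.length_singleton, hZ3]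
      have h1 := hg 0
      have h2 := hg 1
      have : 0 < N.card := Finset.card_pos.2 ⟨e, he⟩
      omega
  · -- part 4
    refine ⟨(σ 0).reverse ++ [x], ?_, ?_, ?_, ?_⟩
    · refine v_app (v_rev (hF.isP 0)) (v_sing x) ?_ ?_
      · intro a h1 h2
        rw [List.mem_reverse] at h1
        rw [List.mem_singleton] at h2
        subst h2
        exact hF.nx 0 h1
      · intro a h1 b h2
        rw [List.getLast?_reverse, hc 0, Option.mem_def, Option.some.injEq] at h1
        rw [List.head?_cons, Option.mem_def, Option.some.injEq] at h2
        subst h1; subst h2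
        exact (hxc 0).symm
    · simp
    · intro w hw
      rw [List.mem_append, List.mem_reverse, List.mem_singleton] at hw
      rcases hw with h | h
      · right; exact ⟨0, h⟩
      · left; rw [h]; exact Finset.mem_singleton_self _
    · rw [List.length_append, List.length_reverse, List.length_singleton]
      have := hg 0
      omega

end R90.CB
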